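import Pool.Agent.Helper22.AA.Trans
import Pool.Agent.Helper69.AA.Alg

/-! # Families: the irreducible relation between two monomials -/

open MvPolynomial Finset

namespace Pool.Agent.Helper22.AA
open Pool.Agent.Helper69.AA

variable {σ : Type} {n : ℕ}

/-! ### Values -/

lemma evs_mul (s : σ → ℂ) (H G : MvPolynomial (Fin 2) (MvPolynomial σ ℤ)) (x y : ℂ) :
    evs s (H * G) x y = evs s H x y * evs s G x y := eval₂_mul _ _

lemma evs_add (s : σ → ℂ) (H G : MvPolynomial (Fin 2) (MvPolynomial σ ℤ)) (x y : ℂ) :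
    evs s (H + G) x y = evs s H x y + evs s G x y := eval₂_add _ _

lemma evs_one (s : σ → ℂ) (x y : ℂ) : evs s (1 : MvPolynomial (Fin 2) (MvPolynomial σ ℤ)) x y = 1 :=
  eval₂_one _ _

lemma evs_zero (s : σ → ℂ) (x y : ℂ) : evs s (0 : MvPolynomial (Fin 2) (MvPolynomial σ ℤ)) x y = 0 :=
  eval₂_zero _ _

lemma evs_aeval₁ (s : σ → ℂ) (D : Polynomial (MvPolynomial σ ℤ)) (x y : ℂ) :
    evs s (Polynomial.aeval (X 1 : MvPolynomial (Fin 2) (MvPolynomial σ ℤ)) D) x y =
      Polynomial.eval₂ (aeval s : MvPolynomial σ ℤ →ₐ[ℤ] ℂ).toRingHom y D := by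
  unfold evs
  rw [Polynomial.aeval_def]
  have h := Polynomial.hom_eval₂ D (algebraMap (MvPolynomial σ ℤ) (MvPolynomial (Fin 2) (MvPolynomial σ ℤ)))
    (eval₂Hom (aeval s : MvPolynomial σ ℤ →ₐ[ℤ] ℂ).toRingHom ![x, y]) (X 1)
  rw [coe_eval₂Hom] at h
  rw [h, eval₂_X]
  congr 1
  exact RingHom.ext fun r => eval₂_C _ _ _

lemma evs_aeval₀ (s : σ → ℂ) (D : Polynomial (MvPolynomial σ ℤ)) (x y : ℂ) :
    evs s (Polynomial.aeval (X 0 : MvPolynomial (Fin 2) (MvPolynomial σ ℤ)) D) x y =
      Polynomial.eval₂ (aeval s : MvPolynomial σ ℤ →ₐ[ℤ] ℂ).toRingHom x D := by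
  unfold evs
  rw [Polynomial.aeval_def]
  have h := Polynomial.hom_eval₂ D (algebraMap (MvPolynomial σ ℤ) (MvPolynomial (Fin 2) (MvPolynomial σ ℤ)))
    (eval₂Hom (aeval s : MvPolynomial σ ℤ →ₐ[ℤ] ℂ).toRingHom ![x, y]) (X 0)
  rw [coe_eval₂Hom] at h
  rw [h, eval₂_X]
  congr 1
  exact RingHom.ext fun r => eval₂_C _ _ _

/-! ### Algebraic elements -/

lemma isAlgebraic_of_hom {S₁ S₂ : Type} [CommRing S₁] [CommRing S₂] [Algebra S₁ ℂ] [Algebra S₂ ℂ]
    (i : S₁ →+* S₂) (hi : Function.Injective i) (h : ∀ r, algebraMap S₂ ℂ (i r) = algebraMap S₁ ℂ r)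
    {x : ℂ} (hx : IsAlgebraic S₁ x) : IsAlgebraic S₂ x := by
  obtain ⟨g, hg0, hg⟩ := hx
  refine ⟨g.map i, fun h0 => hg0 (Polynomial.map_injective i hi (by rw [h0, Polynomial.map_zero])), ?_⟩
  rw [Polynomial.aeval_def, Polynomial.eval₂_map]
  have : (algebraMap S₂ ℂ).comp i = algebraMap S₁ ℂ := RingHom.ext h
  rw [this]
  exact hg

/-- a root of a polynomial over `ℤ[s]` -/
lemma alg_of_eval₂ {ss : σ → ℂ} (hind : AlgebraicIndependent ℤ ss) {D : Polynomial (MvPolynomial σ ℤ)}
    (hD : D ≠ 0) {y : ℂ} (h : Polynomial.eval₂ (aeval ss : MvPolynomial σ ℤ →ₐ[ℤ] ℂ).toRingHom y D = 0) :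
    IsAlgebraic (Algebra.adjoin ℤ (Set.range ss)) y := by
  let e := hind.aevalEquiv
  refine ⟨D.map e.toRingHom, fun h0 => hD (Polynomial.map_injective e.toRingHom e.injective
    (by rw [h0, Polynomial.map_zero])), ?_⟩
  rw [Polynomial.aeval_def, Polynomial.eval₂_map, ← h]
  congr 1

/-- two numbers which are algebraic over `R[t]` are algebraically dependent -/
lemma dep_of_alg' {R : Type} [CommRing R] [Algebra R ℂ] [FaithfulSMul R ℂ] {t x y : ℂ}
    (hx : IsAlgebraic (Algebra.adjoin R {t}) x) (hy : IsAlgebraic (Algebra.adjoin R {t}) y) :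
    ∃ G : MvPolynomial (Fin 2) R, G ≠ 0 ∧ aeval ![x, y] G = 0 := by
  by_contra hcon
  push Not at hcon
  have hind : AlgebraicIndependent R ![x, y] := by
    rw [algebraicIndependent_iff]
    intro G hG
    by_contra hne
    exact hcon G hne hG
  have : Nontrivial R := (algebraMap R ℂ).domain_nontrivial
  have hinj := hind.injective
  have hI : (AlgebraicIndependent.matroid R ℂ).Indep (Set.range ![x, y]) := by
    rw [AlgebraicIndependent.matroid_indep_iff]
    exact hind.coe_range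
  have hsub : Set.range ![x, y] ⊆ (AlgebraicIndependent.matroid R ℂ).closure {t} := by
    rw [AlgebraicIndependent.matroid_closure_eq]
    rintro _ ⟨i, rfl⟩
    fin_cases i
    · exact hx
    · exact hy
  have h1 := hI.encard_le_eRk_of_subset hsub
  rw [Matroid.eRk_closure_eq] at h1
  have h2 := h1.trans (Matroid.eRk_le_encard _ _)
  rw [Set.encard_singleton] at h2
  have h3 : (Set.range ![x, y]).encard = 2 := by
    rw [← Set.image_univ, hinj.encard_image]
    simp
  rw [h3] at h2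
  exact absurd h2 (by decide)

lemma alg_of_sub {A : Type} [CommRing A] [Algebra A ℂ] {S : Subalgebra ℤ ℂ} {T : Set ℂ}
    (hS : ∀ r ∈ S, r ∈ Algebra.adjoin A T) {y : ℂ} (h : IsAlgebraic S y) : IsAlgebraic (Algebra.adjoin A T) y := by
  set i := (algebraMap S ℂ).codRestrict (Algebra.adjoin A T) (fun r => hS _ r.2) with hi
  refine isAlgebraic_of_hom i (fun a b hab => ?_) (fun r => rfl) h
  have h2 : (i a : ℂ) = (i b : ℂ) := by rw [hab]
  exact Subtype.ext h2

/-- the coordinates are algebraic over the ring generated by one of them -/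
lemma alg_adjoin {ss : σ → ℂ} {t y : ℂ} (h : IsAlgebraic (Algebra.adjoin ℤ (Set.range ss ∪ {t})) y) :
    IsAlgebraic (Algebra.adjoin (Algebra.adjoin ℤ (Set.range ss)) {t}) y := by
  refine alg_of_sub (fun r hr => ?_) h
  induction hr using Algebra.adjoin_induction with
  | mem x hx =>
    rcases hx with hx | hx
    · exact Subalgebra.algebraMap_mem _ (⟨x, Algebra.subset_adjoin hx⟩ : Algebra.adjoin ℤ (Set.range ss))
    · exact Algebra.subset_adjoin hx
  | algebraMap q =>
    rw [algebraMap_int_eq, eq_intCast]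
    exact intCast_mem _ q
  | add x y _ _ hx hy => exact add_mem hx hy
  | mul x y _ _ hx hy => exact mul_mem hx hy

/-! ### The relation -/

/-- **(K)** an irreducible relation divides every relation, at all its points with a coordinate which is
transcendental over the ring generated by the parameters -/
theorem dvd_of_irreducible {ss : σ → ℂ} (hind : AlgebraicIndependent ℤ ss)
    {H : MvPolynomial (Fin 2) (MvPolynomial σ ℤ)} (hH : Irreducible H) (h0 : 0 < H.degreeOf 0)
    (h1 : 0 < H.degreeOf 1) {x y : ℂ} (h : evs ss H x y = 0)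
    (ht : Transcendental (Algebra.adjoin ℤ (Set.range ss)) x ∨
      Transcendental (Algebra.adjoin ℤ (Set.range ss)) y)
    (G : MvPolynomial (Fin 2) (MvPolynomial σ ℤ)) (hG : evs ss G x y = 0) : H ∣ G := by
  by_contra hcon
  rcases ht with hx | hy
  · obtain ⟨A, B, D, hD, h2⟩ := exists_elim₁ hH h1 hcon
    have h3 := congrArg (fun F => evs ss F x y) h2
    simp only [evs_add, evs_mul, h, hG, mul_zero, add_zero, evs_aeval₀] at h3
    exact hx (alg_of_eval₂ hind hD h3.symm)
  · obtain ⟨A, B, D, hD, h2⟩ := exists_elim₀ hH h0 hcon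
    have h3 := congrArg (fun F => evs ss F x y) h2
    simp only [evs_add, evs_mul, h, hG, mul_zero, add_zero, evs_aeval₁] at h3
    exact hy (alg_of_eval₂ hind hD h3.symm)

/-- a polynomial of degree zero in the first variable is a polynomial in the second -/
lemma exists_of_degree₀ {R : Type} [CommRing R] [IsDomain R] {H : MvPolynomial (Fin 2) R}
    (h : H.degreeOf 0 = 0) :
    ∃ D : Polynomial R, H = Polynomial.aeval (X 1 : MvPolynomial (Fin 2) R) D := by
  have h1 : (finSuccEquiv R 1 H).natDegree = 0 := by rw [natDegree_finSuccEquiv, h]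
  obtain ⟨c, hc⟩ := Polynomial.natDegree_eq_zero.1 h1
  refine ⟨aeval (fun _ => (Polynomial.X : Polynomial R)) c, ?_⟩
  rw [← Helper69.AA.rename_eq_aeval, ← symm_C, hc, AlgEquiv.symm_apply_apply]

lemma exists_of_degree₁ {R : Type} [CommRing R] [IsDomain R] {H : MvPolynomial (Fin 2) R}
    (h : H.degreeOf 1 = 0) :
    ∃ D : Polynomial R, H = Polynomial.aeval (X 0 : MvPolynomial (Fin 2) R) D := by
  obtain ⟨D, hD⟩ := exists_of_degree₀ (H := swapV R H) (by rw [degreeOf_swapV, h])
  refine ⟨D, ?_⟩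
  have h2 := congrArg (swapV R) hD
  rw [swapV_swapV] at h2
  rw [h2]
  have h8 := Polynomial.aeval_algHom_apply (swapV R : MvPolynomial (Fin 2) R →ₐ[R] MvPolynomial (Fin 2) R)
    (X 1 : MvPolynomial (Fin 2) R) D
  have h9 : swapV R (X 1 : MvPolynomial (Fin 2) R) = X 0 := by
    change rename _ (X 1) = _
    rw [rename_X, Equiv.swap_apply_right]
  change Polynomial.aeval (swapV R (X 1)) D = swapV R (Polynomial.aeval (X 1) D) at h8
  rw [← h8, h9]

/-- **F2** for two numbers -/
theorem exists_irreducible {ss : σ → ℂ} (hind : AlgebraicIndependent ℤ ss) {x y : ℂ}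
    (hx : Transcendental (Algebra.adjoin ℤ (Set.range ss)) x)
    (hy : Transcendental (Algebra.adjoin ℤ (Set.range ss)) y)
    {G : MvPolynomial (Fin 2) (MvPolynomial σ ℤ)} (hG0 : G ≠ 0) (hG : evs ss G x y = 0) :
    ∃ H : MvPolynomial (Fin 2) (MvPolynomial σ ℤ), Irreducible H ∧ 0 < H.degreeOf 0 ∧
      0 < H.degreeOf 1 ∧ evs ss H x y = 0 := by
  have key : ∀ G : MvPolynomial (Fin 2) (MvPolynomial σ ℤ), G ≠ 0 → evs ss G x y = 0 →
      ∃ H, Irreducible H ∧ evs ss H x y = 0 := by
    intro G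
    induction G using WfDvdMonoid.induction_on_irreducible with
    | zero => exact fun h => absurd rfl h
    | unit u hu =>
      intro _ h
      exfalso
      obtain ⟨w, hw⟩ := hu.exists_right_inv
      have h1 := congrArg (fun F => evs ss F x y) hw
      simp only [evs_mul, h, zero_mul, evs_one] at h1
      exact zero_ne_one h1
    | mul a i ha hi ih =>
      intro _ h
      rw [evs_mul] at h
      rcases mul_eq_zero.1 h with h | h
      · exact ⟨i, hi, h⟩
      · exact ih ha h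
  obtain ⟨H, h1, h2⟩ := key G hG0 hG
  refine ⟨H, h1, ?_, ?_, h2⟩
  · rcases Nat.eq_zero_or_pos (H.degreeOf 0) with h0 | h0
    swap
    · exact h0
    exfalso
    obtain ⟨D, rfl⟩ := exists_of_degree₀ h0
    rw [evs_aeval₁] at h2
    refine hy (alg_of_eval₂ hind (fun hD => ?_) h2)
    rw [hD, map_zero] at h1
    exact h1.ne_zero rfl
  · rcases Nat.eq_zero_or_pos (H.degreeOf 1) with h0 | h0
    swap
    · exact h0
    exfalso
    obtain ⟨D, rfl⟩ := exists_of_degree₁ h0
    rw [evs_aeval₀] at h2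
    refine hx (alg_of_eval₂ hind (fun hD => ?_) h2)
    rw [hD, map_zero] at h1
    exact h1.ne_zero rfl

/-- **F1** in the form for two exponent vectors -/
theorem transc_pair [Countable σ] {ss : σ → ℂ} {zs : Fin n → ℂ} (hF : Family ss zs) {a b : Fin n → ℤ}
    (hab : ∀ s t : ℤ, (∀ i, s * a i + t * b i = 0) → s = 0 ∧ t = 0) (s t : ℤ) (hst : s ≠ 0 ∨ t ≠ 0) :
    Transcendental (Algebra.adjoin ℤ (Set.range ss)) ((∏ i, zs i ^ a i) ^ s * (∏ i, zs i ^ b i) ^ t) := by
  have hz0 : ∀ i, zs i ≠ 0 := fun i h => hF.tr i (by rw [h]; exact isAlgebraic_zero)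
  obtain ⟨k, hk⟩ : ∃ k, s * a k + t * b k ≠ 0 := by
    by_contra hcon
    push Not at hcon
    obtain ⟨h1, h2⟩ := hab s t hcon
    rcases hst with h | h
    · exact h h1
    · exact h h2
  have h1 := transc_family hF (c := fun i => s * a i + t * b i) hk
  have h2 : ∏ i, zs i ^ (s * a i + t * b i) = (∏ i, zs i ^ a i) ^ s * (∏ i, zs i ^ b i) ^ t := by
    rw [← prod_zpow, ← prod_zpow, ← prod_mul_distrib]
    refine prod_congr rfl fun i _ => ?_
    rw [zpow_add₀ (hz0 i), mul_comm s, mul_comm t, zpow_mul, zpow_mul]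
  rwa [h2] at h1

/-- two monomials are algebraically dependent over the ring generated by the parameters -/
theorem exists_dependence {ss : σ → ℂ} {zs : Fin n → ℂ} (hF : Family ss zs) (k₀ : Fin n)
    (a b : Fin n → ℤ) : ∃ G : MvPolynomial (Fin 2) (MvPolynomial σ ℤ), G ≠ 0 ∧
      evs ss G (∏ i, zs i ^ a i) (∏ i, zs i ^ b i) = 0 := by
  set A := Algebra.adjoin ℤ (Set.range ss) with hA
  have hprod : ∀ c : Fin n → ℤ, IsAlgebraic (Algebra.adjoin A {zs k₀}) (∏ i, zs i ^ c i) := by
    intro c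
    have : ∏ i, zs i ^ c i ∈ Subalgebra.algebraicClosure (Algebra.adjoin A {zs k₀}) ℂ := by
      refine prod_mem fun i _ => ?_
      have hi : zs i ∈ Subalgebra.algebraicClosure (Algebra.adjoin A {zs k₀}) ℂ :=
        alg_adjoin (hF.alg k₀ i)
      rcases Int.eq_nat_or_neg (c i) with ⟨m, h | h⟩
      · rw [h, zpow_natCast]
        exact pow_mem hi m
      · rw [h, zpow_neg, zpow_natCast]
        exact (show IsAlgebraic (Algebra.adjoin A {zs k₀}) (zs i ^ m) from pow_mem hi m).inv
    exact this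
  obtain ⟨G, hG0, hG⟩ := dep_of_alg' (hprod a) (hprod b)
  let e := hF.indep.aevalEquiv
  refine ⟨map e.symm.toRingHom G, fun h0 => hG0 (map_injective e.symm.toRingHom e.symm.injective
    (by rw [h0, map_zero])), ?_⟩
  unfold evs
  rw [eval₂_map, ← hG, aeval_def]
  congr 1
  ext1 r
  have h1 : ((e (e.symm r) : A) : ℂ) = aeval ss (e.symm r) := hF.indep.aevalEquiv_apply_coe _
  rw [AlgEquiv.apply_symm_apply] at h1
  exact h1.symm

/-- **F2**: the irreducible relation between two monomials in the coordinates of the generic point -/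
theorem exists_rel [Countable σ] {ss : σ → ℂ} {zs : Fin n → ℂ} (hF : Family ss zs) {a b : Fin n → ℤ}
    (hab : ∀ s t : ℤ, (∀ i, s * a i + t * b i = 0) → s = 0 ∧ t = 0) :
    ∃ H : MvPolynomial (Fin 2) (MvPolynomial σ ℤ), Irreducible H ∧ 0 < H.degreeOf 0 ∧
      0 < H.degreeOf 1 ∧ evs ss H (∏ i, zs i ^ a i) (∏ i, zs i ^ b i) = 0 ∧
      ∀ x y : ℂ, evs ss H x y = 0 → (Transcendental (Algebra.adjoin ℤ (Set.range ss)) x ∨
        Transcendental (Algebra.adjoin ℤ (Set.range ss)) y) →
          ∀ G : MvPolynomial (Fin 2) (MvPolynomial σ ℤ), evs ss G x y = 0 → H ∣ G := by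
  rcases isEmpty_or_nonempty (Fin n) with hn | ⟨⟨k₀⟩⟩
  · exact absurd (hab 1 0 fun i => hn.elim i).1 one_ne_zero
  have hxt : Transcendental (Algebra.adjoin ℤ (Set.range ss)) (∏ i, zs i ^ a i) := by
    have := transc_pair hF hab 1 0 (Or.inl one_ne_zero)
    rwa [zpow_one, zpow_zero, mul_one] at this
  have hyt : Transcendental (Algebra.adjoin ℤ (Set.range ss)) (∏ i, zs i ^ b i) := by
    have := transc_pair hF hab 0 1 (Or.inr one_ne_zero)
    rwa [zpow_one, zpow_zero, one_mul] at this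
  obtain ⟨G, hG0, hG⟩ := exists_dependence hF k₀ a b
  obtain ⟨H, hH, h0, h1, hxy⟩ := exists_irreducible hF.indep hxt hyt hG0 hG
  exact ⟨H, hH, h0, h1, hxy, fun x y h ht G hG => dvd_of_irreducible hF.indep hH h0 h1 h ht G hG⟩

end Pool.Agent.Helper22.AA
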