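import Pool.Agent.Helper22.AA.Irr
import Pool.Agent.Helper69.AA.Good

/-! # Families: the conditions at almost all places -/

open MvPolynomial

namespace Pool.Agent.Helper22.AA
open Pool.Agent.Helper69.AA

variable {σ : Type} {n : ℕ}

/-- the generic point of a family has good relations -/
theorem genRel_of_family [Countable σ] {ss : σ → ℂ} {zs : Fin n → ℂ} (hF : Family ss zs) : GenRel ss zs :=
  ⟨fun _ _ h => transc_family hF h, fun _ _ hab => exists_rel hF hab⟩

/-- **the fibres of a family are good at almost all places** -/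
theorem family_good [Countable σ] {ss : σ → ℂ} {zs : Fin n → ℂ} (hF : Family ss zs) :
    ∃ P : MvPolynomial σ ℤ, P ≠ 0 ∧ ∀ (s : σ → ℤ) (p : ℕ), p.Prime → ¬ (p : ℤ) ∣ eval s P →
      ∀ v : AbsoluteValue ℂ ℝ, IsNonarchimedean v → v (p : ℂ) < 1 →
        LocalGood v p (fib ss zs fun κ => (s κ : ℂ)) :=
  good_of_genRel hF (genRel_of_family hF)

end Pool.Agent.Helper22.AA
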