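import Pool.Agent.Helper36.DL.PolyImage

/-! # The degree filtration of the coordinate ring of a curve; the number of zeros on a member

The constant depends only on the curve `V`, not on the polynomial map of degree one. -/

open MvPolynomial

namespace Pool.Agent.Helper22.AA
open Pool.Agent.Helper11.ZP Pool.Agent.Helper11.ZU Pool.Agent.Helper36.DL Module

section hilb

variable {K A : Type*} [Field K] [CommRing A] [Algebra K A] {s r : ℕ}

/-- representable with coefficients of degree at most `N` -/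
def Rep (g : MvPolynomial (Fin s) K →ₐ[K] A) (w : Fin r → A) (d : Fin r → ℕ) (N : ℕ) (x : A) : Prop :=
  ∃ p : (∀ i, Fin (d i)) → MvPolynomial (Fin s) K, (∀ j, (p j).totalDegree ≤ N) ∧
    x = ∑ j, g (p j) * ∏ i, w i ^ (j i : ℕ)

variable {g : MvPolynomial (Fin s) K →ₐ[K] A} {w : Fin r → A} {d : Fin r → ℕ} {N : ℕ}

lemma Rep.mono {M : ℕ} {x : A} (h : Rep g w d N x) (hM : N ≤ M) : Rep g w d M x := by
  obtain ⟨p, hp, hx⟩ := h
  exact ⟨p, fun j => (hp j).trans hM, hx⟩

lemma Rep.zero : Rep g w d N 0 := ⟨0, by simp, by simp⟩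

lemma Rep.add {x y : A} (hx : Rep g w d N x) (hy : Rep g w d N y) : Rep g w d N (x + y) := by
  obtain ⟨p, hp, rfl⟩ := hx
  obtain ⟨q, hq, rfl⟩ := hy
  refine ⟨p + q, fun j => (totalDegree_add _ _).trans (max_le (hp j) (hq j)), ?_⟩
  rw [← Finset.sum_add_distrib]
  refine Finset.sum_congr rfl fun j _ => ?_
  rw [Pi.add_apply, map_add, add_mul]

lemma Rep.sum {ι : Type*} {S : Finset ι} {f : ι → A} (h : ∀ i ∈ S, Rep g w d N (f i)) :
    Rep g w d N (∑ i ∈ S, f i) := by
  classical
  induction S using Finset.induction_on with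
  | empty => rw [Finset.sum_empty]; exact Rep.zero
  | insert a S ha ih =>
    rw [Finset.sum_insert ha]
    exact (h a (Finset.mem_insert_self _ _)).add (ih fun i hi => h i (Finset.mem_insert_of_mem hi))

lemma Rep.mul_left {e : ℕ} {x : A} (h : Rep g w d N x) {q : MvPolynomial (Fin s) K} (hq : q.totalDegree ≤ e) :
    Rep g w d (e + N) (g q * x) := by
  obtain ⟨p, hp, rfl⟩ := h
  refine ⟨fun j => q * p j, fun j => (totalDegree_mul _ _).trans (add_le_add hq (hp j)), ?_⟩
  rw [Finset.mul_sum]
  refine Finset.sum_congr rfl fun j _ => ?_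
  rw [map_mul, mul_assoc]

lemma Rep.mon (j : ∀ i, Fin (d i)) : Rep g w d 0 (∏ i, w i ^ (j i : ℕ)) := by
  classical
  refine ⟨fun j' => if j' = j then 1 else 0, fun j' => ?_, ?_⟩
  · dsimp only
    split_ifs <;> simp
  · rw [Finset.sum_eq_single j]
    · dsimp only
      rw [if_pos rfl, map_one, one_mul]
    · intro j' _ h
      dsimp only
      rw [if_neg h, map_zero, zero_mul]
    · intro h
      exact absurd (Finset.mem_univ _) h

lemma prod_update (w : Fin r → A) (j : ∀ i, Fin (d i)) (i : Fin r) (k : Fin (d i)) :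
    ∏ l, w l ^ ((Function.update j i k l : Fin (d l)) : ℕ) =
      w i ^ (k : ℕ) * ∏ l ∈ Finset.univ.erase i, w l ^ (j l : ℕ) := by
  rw [← Finset.mul_prod_erase _ _ (Finset.mem_univ i), Function.update_self]
  congr 1
  refine Finset.prod_congr rfl fun l hl => ?_
  rw [Function.update_of_ne (Finset.ne_of_mem_erase hl)]

/-- the relations -/
structure Rels (g : MvPolynomial (Fin s) K →ₐ[K] A) (w : Fin r → A) (d : Fin r → ℕ) (e : ℕ) where
  b : Fin r → ℕ → MvPolynomial (Fin s) K
  deg : ∀ i k, (b i k).totalDegree ≤ e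
  pos : ∀ i, 0 < d i
  rel : ∀ i, w i ^ d i = ∑ k ∈ Finset.range (d i), g (b i k) * w i ^ k

lemma Rep.mul_w {e : ℕ} (R : Rels g w d e) {x : A} (h : Rep g w d N x) (i : Fin r) :
    Rep g w d (N + e) (w i * x) := by
  obtain ⟨p, hp, rfl⟩ := h
  rw [Finset.mul_sum]
  refine Rep.sum fun j _ => ?_
  rw [mul_left_comm]
  refine Rep.mul_left ?_ (hp j)
  rw [← Finset.mul_prod_erase _ _ (Finset.mem_univ i), ← mul_assoc, ← pow_succ']
  by_cases hj : (j i : ℕ) + 1 < d i
  · have h1 := Rep.mon (g := g) (w := w) (Function.update j i ⟨_, hj⟩)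
    rw [prod_update] at h1
    exact h1.mono (Nat.zero_le _)
  · have h1 : (j i : ℕ) + 1 = d i := le_antisymm (j i).2 (not_lt.1 hj)
    rw [h1, R.rel, Finset.sum_mul]
    refine Rep.sum fun k hk => ?_
    rw [mul_assoc]
    have h2 := Rep.mon (g := g) (w := w) (Function.update j i ⟨k, Finset.mem_range.1 hk⟩)
    rw [prod_update] at h2
    exact Rep.mul_left h2 (R.deg i k)

lemma Rep.monomial {e : ℕ} (R : Rels g w d e) (D : ℕ) (m : Fin r →₀ ℕ) (hm : ∑ i, m i ≤ D) :
    Rep g w d (e * D) (∏ i, w i ^ m i) := by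
  classical
  induction D generalizing m with
  | zero =>
    have h1 : ∀ i, m i = 0 := fun i => by
      have := Finset.single_le_sum (f := fun i => m i) (fun _ _ => Nat.zero_le _) (Finset.mem_univ i)
      omega
    have h2 := Rep.mon (g := g) (w := w) (d := d) fun i => ⟨0, R.pos i⟩
    rw [mul_zero]
    convert h2 using 3 with i
    exact h1 i
  | succ D ih =>
    by_cases h0 : ∀ i, m i = 0
    · have h2 := Rep.mon (g := g) (w := w) (d := d) fun i => ⟨0, R.pos i⟩
      refine Rep.mono (N := 0) ?_ (Nat.zero_le _)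
      convert h2 using 3 with i
      exact h0 i
    · push Not at h0
      obtain ⟨i, hi⟩ := h0
      have h3 : m = (m - Finsupp.single i 1) + Finsupp.single i 1 := by
        ext l
        rw [Finsupp.add_apply, Finsupp.tsub_apply]
        by_cases hl : l = i
        · subst hl
          rw [Finsupp.single_eq_same]
          omega
        · rw [Finsupp.single_eq_of_ne hl]
          omega
      set m' := m - Finsupp.single i 1 with hm'
      have h4 : ∑ l, m' l ≤ D := by
        have h5 : ∑ l, m l = ∑ l, m' l + 1 := by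
          rw [h3]
          simp only [Finsupp.add_apply]
          rw [Finset.sum_add_distrib]
          congr 1
          rw [Finset.sum_eq_single i]
          · exact Finsupp.single_eq_same
          · intro l _ hl
            exact Finsupp.single_eq_of_ne hl
          · intro h; exact absurd (Finset.mem_univ _) h
        omega
      have h6 := (ih m' h4).mul_w R i
      have h7 : ∏ l, w l ^ m l = w i * ∏ l, w l ^ m' l := by
        rw [← Finset.mul_prod_erase _ _ (Finset.mem_univ i),
          ← Finset.mul_prod_erase _ (fun l => w l ^ m' l) (Finset.mem_univ i), ← mul_assoc, ← pow_succ']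
        congr 1
        · congr 1
          rw [h3, Finsupp.add_apply, Finsupp.single_eq_same]
        · refine Finset.prod_congr rfl fun l hl => ?_
          rw [h3, Finsupp.add_apply, Finsupp.single_eq_of_ne (Finset.ne_of_mem_erase hl), add_zero]
      rw [h7, mul_add, mul_one]
      exact h6

lemma Rep.of_mem {e : ℕ} {π : MvPolynomial (Fin r) K →ₐ[K] A} (R : Rels g (fun i => π (X i)) d e) (D : ℕ)
    {f : MvPolynomial (Fin r) K} (hf : f ∈ restrictTotalDegree (Fin r) K D) :
    Rep g (fun i => π (X i)) d (e * D) (π f) := by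
  rw [f.as_sum, map_sum]
  refine Rep.sum fun m hm => ?_
  have h1 : π (MvPolynomial.monomial m (f.coeff m)) = g (C (f.coeff m)) * ∏ i, π (X i) ^ m i := by
    rw [monomial_eq, map_mul, Finsupp.prod_fintype _ _ (fun i => pow_zero _), map_prod]
    congr 1
    · rw [← algebraMap_eq, ← algebraMap_eq, AlgHom.commutes, AlgHom.commutes]
    · simp only [map_pow]
  have h2 : ∑ i, m i ≤ D := by
    rw [mem_restrictTotalDegree] at hf
    refine le_trans ?_ hf
    have h3 := le_totalDegree hm
    rwa [Finsupp.sum_fintype _ _ (fun _ => rfl)] at h3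
  rw [h1]
  have h3 := (Rep.monomial R D m h2).mul_left (q := C (f.coeff m)) (e := 0) (by rw [totalDegree_C])
  rwa [zero_add] at h3

lemma finrank_restrict (hs : s ≤ 1) (N : ℕ) : finrank K (restrictTotalDegree (Fin s) K N) ≤ N + 1 := by
  have h0 : finrank K (restrictTotalDegree (Fin s) K N) = _ :=
    finrank_eq_nat_card_basis (basisRestrictSupport K {n : Fin s →₀ ℕ | (n.sum fun _ e => e) ≤ N})
  rw [h0]
  have h1 : Function.Injective fun n : {n : Fin s →₀ ℕ | (n.sum fun _ e => e) ≤ N} =>
      (⟨n.1.sum fun _ e => e, Nat.lt_succ_of_le n.2⟩ : Fin (N + 1)) := by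
    rintro ⟨a, ha⟩ ⟨b, hb⟩ h
    simp only [Fin.mk.injEq] at h
    rw [Finsupp.sum_fintype _ _ (fun _ => rfl), Finsupp.sum_fintype _ _ (fun _ => rfl)] at h
    apply Subtype.ext
    ext i
    have : Subsingleton (Fin s) := by
      refine ⟨fun x y => ?_⟩
      ext
      omega
    rw [Fintype.sum_subsingleton _ i, Fintype.sum_subsingleton _ i] at h
    exact h
  have h2 := Nat.card_le_card_of_injective _ h1
  rwa [Nat.card_fin] at h2

/-- the linear map with range the representable elements -/
noncomputable def Phi (g : MvPolynomial (Fin s) K →ₐ[K] A) (w : Fin r → A) (d : Fin r → ℕ) (N : ℕ) :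
    ((∀ i, Fin (d i)) → restrictTotalDegree (Fin s) K N) →ₗ[K] A :=
  ∑ j, (LinearMap.mulRight K (∏ i, w i ^ (j i : ℕ))) ∘ₗ g.toLinearMap ∘ₗ (restrictTotalDegree (Fin s) K N).subtype
    ∘ₗ LinearMap.proj j

lemma Rep.mem_range {x : A} (h : Rep g w d N x) : x ∈ LinearMap.range (Phi g w d N) := by
  obtain ⟨p, hp, rfl⟩ := h
  refine ⟨fun j => ⟨p j, (mem_restrictTotalDegree _ _ _).2 (hp j)⟩, ?_⟩
  rw [Phi, LinearMap.sum_apply]
  rfl

/-- the elements of degree at most `D` span a space of dimension at most `c (D + 1)` -/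
theorem hilb_bound {e : ℕ} (hs : s ≤ 1) {π : MvPolynomial (Fin r) K →ₐ[K] A}
    (R : Rels g (fun i => π (X i)) d e) (D : ℕ) :
    finrank K (Submodule.map π.toLinearMap (restrictTotalDegree (Fin r) K D)) ≤
      (∏ i, d i) * (e + 1) * (D + 1) := by
  have h1 : Submodule.map π.toLinearMap (restrictTotalDegree (Fin r) K D) ≤
      LinearMap.range (Phi g (fun i => π (X i)) d (e * D)) := by
    rintro _ ⟨f, hf, rfl⟩
    exact (Rep.of_mem R D hf).mem_range
  have h2 := (Submodule.finrank_mono h1).trans (LinearMap.finrank_range_le _)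
  rw [finrank_pi_fintype, Finset.sum_const, Finset.card_univ, Fintype.card_pi, smul_eq_mul] at h2
  simp only [Fintype.card_fin] at h2
  refine h2.trans ?_
  rw [mul_assoc]
  refine Nat.mul_le_mul_left _ ((finrank_restrict hs _).trans ?_)
  nlinarith

end hilb

section zeros

variable {K A : Type*} [Field K] [CommRing A] [IsDomain A] [Algebra K A] {n : ℕ}

lemma exists_separating (T : Finset (Fin n → K)) (z : Fin n → K) :
    ∃ f : MvPolynomial (Fin n) K, f.totalDegree ≤ T.card ∧ eval z f = 1 ∧
      ∀ z' ∈ T, z' ≠ z → eval z' f = 0 := by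
  classical
  have h1 : ∀ z' : Fin n → K, ∃ l : MvPolynomial (Fin n) K, l.totalDegree ≤ 1 ∧ eval z l = 1 ∧
      (z' ≠ z → eval z' l = 0) := by
    intro z'
    by_cases h : z' = z
    · exact ⟨1, by simp, by simp, fun h' => absurd h h'⟩
    · obtain ⟨k, hk⟩ := Function.ne_iff.1 h
      have hk' : z k - z' k ≠ 0 := sub_ne_zero.2 (Ne.symm hk)
      refine ⟨C ((z k - z' k)⁻¹) * (X k - C (z' k)), ?_, ?_, fun _ => ?_⟩
      · refine (totalDegree_mul _ _).trans ?_
        rw [totalDegree_C, zero_add]
        refine (totalDegree_sub _ _).trans ?_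
        rw [totalDegree_X, totalDegree_C]
        simp
      · rw [map_mul, map_sub, eval_C, eval_C, eval_X, inv_mul_cancel₀ hk']
      · rw [map_mul, map_sub, eval_C, eval_C, eval_X, sub_self, mul_zero]
  choose l hl1 hl2 hl3 using h1
  refine ⟨∏ z' ∈ T, l z', ?_, ?_, fun z' hz' hne => ?_⟩
  · refine (totalDegree_finsetProd _ _).trans ((Finset.sum_le_card_nsmul _ _ 1 fun z' _ => hl1 z').trans ?_)
    simp
  · rw [map_prod]
    exact Finset.prod_eq_one fun z' _ => hl2 z'
  · rw [map_prod]
    exact Finset.prod_eq_zero hz' (hl3 z' hne)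

/-- one step of the Hilbert function -/
theorem finrank_step {ψ : MvPolynomial (Fin n) K →ₐ[K] A} {g : MvPolynomial (Fin n) K} (hg : ψ g ≠ 0)
    (T : Finset (Fin n → K)) (hT : ∀ z ∈ T, ∀ f, ψ f = 0 → eval z f = 0) (hgT : ∀ z ∈ T, eval z g = 0)
    {D : ℕ} (hD : T.card ≤ D) :
    T.card + finrank K (Submodule.map ψ.toLinearMap (restrictTotalDegree (Fin n) K D)) ≤
      finrank K (Submodule.map ψ.toLinearMap (restrictTotalDegree (Fin n) K (D + g.totalDegree))) := by
  classical
  choose f hf1 hf2 hf3 using exists_separating T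
  set E : ((z : T) → K) →ₗ[K] A := ∑ z : T, (LinearMap.toSpanSingleton K A (ψ (f z.1))) ∘ₗ LinearMap.proj z with hE
  have hEa : ∀ a, E a = ψ (∑ z : T, C (a z) * f z.1) := by
    intro a
    rw [hE, LinearMap.sum_apply, map_sum]
    refine Finset.sum_congr rfl fun z _ => ?_
    rw [map_mul, ← algebraMap_eq, AlgHom.commutes, LinearMap.comp_apply, LinearMap.toSpanSingleton_apply,
      Algebra.smul_def]
    rfl
  have hev : ∀ a : T → K, ∀ z : T, eval z.1 (∑ z : T, C (a z) * f z.1) = a z := by
    intro a z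
    rw [map_sum, Finset.sum_eq_single z]
    · rw [map_mul, eval_C, hf2 z.1, mul_one]
    · intro z' _ h
      rw [map_mul, hf3 z'.1 z.1 z.2 (fun h' => h (Subtype.ext h'.symm)), mul_zero]
    · intro h; exact absurd (Finset.mem_univ _) h
  have hEinj : Function.Injective E := by
    rw [← LinearMap.ker_eq_bot, LinearMap.ker_eq_bot']
    intro a ha
    rw [hEa] at ha
    ext z
    have h1 := hT z.1 z.2 _ ha
    rw [hev] at h1
    exact h1
  set B := Submodule.map ψ.toLinearMap (restrictTotalDegree (Fin n) K D) with hB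
  set G : A →ₗ[K] A := LinearMap.mulLeft K (ψ g) with hG
  have hGinj : Function.Injective G := by
    rw [← LinearMap.ker_eq_bot, LinearMap.ker_eq_bot']
    intro x hx
    rw [hG, LinearMap.mulLeft_apply] at hx
    exact (mul_eq_zero.1 hx).resolve_left hg
  have h1 : finrank K (LinearMap.range E) = T.card := by
    rw [LinearMap.finrank_range_of_inj hEinj, finrank_fintype_fun_eq_card, Fintype.card_coe]
  have h2 : finrank K (Submodule.map G B) = finrank K B :=
    (LinearEquiv.finrank_eq (Submodule.equivMapOfInjective G hGinj B)).symm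
  have h3 : LinearMap.range E ⊓ Submodule.map G B = ⊥ := by
    rw [Submodule.eq_bot_iff]
    rintro x ⟨⟨a, rfl⟩, hx⟩
    obtain ⟨_, ⟨q, hq, rfl⟩, h4⟩ := hx
    have h5 : ψ (g * q - ∑ z : T, C (a z) * f z.1) = 0 := by
      rw [map_sub, map_mul, ← hEa, ← h4]
      exact sub_self _
    have h6 : a = 0 := by
      ext z
      have h7 := hT z.1 z.2 _ h5
      rw [map_sub, hev, map_mul, hgT z.1 z.2, zero_mul, zero_sub, neg_eq_zero] at h7
      exact h7
    rw [h6, map_zero]
  have h4 : LinearMap.range E ⊔ Submodule.map G B ≤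
      Submodule.map ψ.toLinearMap (restrictTotalDegree (Fin n) K (D + g.totalDegree)) := by
    rw [sup_le_iff]
    constructor
    · rintro _ ⟨a, rfl⟩
      refine ⟨∑ z : T, C (a z) * f z.1, ?_, (hEa a).symm⟩
      rw [SetLike.mem_coe]
      refine Submodule.sum_mem _ fun z _ => ?_
      rw [mem_restrictTotalDegree]
      refine (totalDegree_mul _ _).trans ?_
      rw [totalDegree_C, zero_add]
      exact (hf1 z.1).trans (hD.trans (Nat.le_add_right _ _))
    · rintro _ ⟨_, ⟨q, hq, rfl⟩, rfl⟩
      refine ⟨g * q, ?_, ?_⟩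
      · rw [SetLike.mem_coe, mem_restrictTotalDegree] at hq ⊢
        refine (totalDegree_mul _ _).trans ?_
        omega
      · exact map_mul ψ g q
  have : Module.Finite K (LinearMap.range E) := inferInstance
  have : Module.Finite K B := Module.Finite.map _ _
  have : Module.Finite K (Submodule.map G B) := Module.Finite.map _ _
  have h5 := Submodule.finrank_sup_add_finrank_inf_eq (LinearMap.range E) (Submodule.map G B)
  rw [h3, finrank_bot, add_zero, h1, h2] at h5
  rw [← h5]
  have : Module.Finite K (Submodule.map ψ.toLinearMap (restrictTotalDegree (Fin n) K (D + g.totalDegree))) :=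
    Module.Finite.map _ _
  exact Submodule.finrank_mono h4

/-- the number of zeros -/
theorem card_zeros {ψ : MvPolynomial (Fin n) K →ₐ[K] A} {c : ℕ}
    (hc : ∀ D, finrank K (Submodule.map ψ.toLinearMap (restrictTotalDegree (Fin n) K D)) ≤ c * (D + 1))
    {g : MvPolynomial (Fin n) K} (hg : ψ g ≠ 0)
    (T : Finset (Fin n → K)) (hT : ∀ z ∈ T, ∀ f, ψ f = 0 → eval z f = 0) (hgT : ∀ z ∈ T, eval z g = 0) :
    T.card ≤ c * g.totalDegree := by
  have h1 : ∀ k : ℕ, k * T.card ≤
      finrank K (Submodule.map ψ.toLinearMap (restrictTotalDegree (Fin n) K (T.card + k * g.totalDegree))) := by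
    intro k
    induction k with
    | zero => rw [zero_mul]; exact Nat.zero_le _
    | succ k ih =>
      have h2 := finrank_step hg T hT hgT (D := T.card + k * g.totalDegree) (Nat.le_add_right _ _)
      rw [add_assoc, ← Nat.succ_mul] at h2
      refine le_trans ?_ h2
      rw [Nat.succ_mul]
      omega
  by_contra hlt
  have hlt' : c * g.totalDegree + 1 ≤ T.card := not_le.1 hlt
  have h2 := (h1 (c * (T.card + 1) + 1)).trans (hc _)
  have h3 := Nat.mul_le_mul_left (c * (T.card + 1) + 1) hlt'
  nlinarith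

end zeros

section curve

variable {r : ℕ} {V : Set (Fin r → ℂ)}

lemma exists_hilb (hV : IsSubvariety V) (h1 : dim V = 1) : ∃ c : ℕ, ∀ D : ℕ,
    finrank ℂ (Submodule.map (Ideal.Quotient.mkₐ ℂ (vanishingIdeal ℂ V)).toLinearMap
      (restrictTotalDegree (Fin r) ℂ D)) ≤ c * (D + 1) := by
  classical
  have hI := van_prime hV
  have hdom : IsDomain (MvPolynomial (Fin r) ℂ ⧸ vanishingIdeal ℂ V) := Ideal.Quotient.isDomain _
  set π := Ideal.Quotient.mkₐ ℂ (vanishingIdeal ℂ V) with hπ
  obtain ⟨s, g, hinj, hint⟩ := exists_integral_inj_algHom_of_fg ℂ (MvPolynomial (Fin r) ℂ ⧸ vanishingIdeal ℂ V)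
  have hs : s ≤ 1 := by
    have h2 : AlgebraicIndependent ℂ fun i : Fin s => g (X i) := by
      rw [algebraicIndependent_iff_injective_aeval]
      have h3 : (aeval fun i : Fin s => g (X i)) = g := by
        ext i
        simp
      rw [h3]
      exact hinj
    have h3 := h2.lift_cardinalMk_le_trdeg
    have h4 : Algebra.trdeg ℂ (MvPolynomial (Fin r) ℂ ⧸ vanishingIdeal ℂ V) < Cardinal.aleph0 :=
      trdeg_lt_aleph0_of_finiteType
    have h5 : Cardinal.toNat (Algebra.trdeg ℂ (MvPolynomial (Fin r) ℂ ⧸ vanishingIdeal ℂ V)) = 1 := h1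
    simp only [Cardinal.lift_id, Cardinal.mk_fin] at h3
    have h6 := Cardinal.toNat_le_toNat h3 h4
    rw [h5] at h6
    simpa using h6
  choose q hq1 hq2 using fun i => hint (π (X i))
  have hpos : ∀ i, 0 < (q i).natDegree := by
    intro i
    refine Nat.pos_of_ne_zero fun h0 => ?_
    have h2 : q i = 1 := Polynomial.eq_one_of_monic_natDegree_zero (hq1 i) h0
    have h3 := hq2 i
    rw [h2, Polynomial.eval₂_one] at h3
    exact one_ne_zero h3
  set e : ℕ := Finset.univ.sup fun i => (Finset.range ((q i).natDegree + 1)).sup fun k => ((q i).coeff k).totalDegree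
    with he
  have hedeg : ∀ i k, ((q i).coeff k).totalDegree ≤ e := by
    intro i k
    by_cases hk : k ≤ (q i).natDegree
    · refine le_trans ?_ (Finset.le_sup (Finset.mem_univ i))
      exact Finset.le_sup (f := fun k => ((q i).coeff k).totalDegree) (Finset.mem_range.2 (Nat.lt_succ_of_le hk))
    · rw [Polynomial.coeff_eq_zero_of_natDegree_lt (not_le.1 hk), totalDegree_zero]
      exact Nat.zero_le _
  have R : Rels g (fun i => π (X i)) (fun i => (q i).natDegree) e :=
    { b := fun i k => -(q i).coeff k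
      deg := fun i k => by rw [totalDegree_neg]; exact hedeg i k
      pos := hpos
      rel := fun i => by
        have h2 := hq2 i
        have h3 : q i = Polynomial.X ^ (q i).natDegree +
          ∑ k ∈ Finset.range (q i).natDegree, Polynomial.C ((q i).coeff k) * Polynomial.X ^ k := (hq1 i).as_sum
        rw [h3, Polynomial.eval₂_add, Polynomial.eval₂_pow, Polynomial.eval₂_X, Polynomial.eval₂_finsetSum] at h2
        rw [eq_neg_of_add_eq_zero_left h2, ← Finset.sum_neg_distrib]
        refine Finset.sum_congr rfl fun k _ => ?_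
        rw [Polynomial.eval₂_mul, Polynomial.eval₂_C, Polynomial.eval₂_pow, Polynomial.eval₂_X, map_neg]
        exact (neg_mul (g ((q i).coeff k)) (π (X i) ^ k)).symm }
  exact ⟨_, fun D => hilb_bound hs R D⟩

lemma totalDegree_aeval_le {n : ℕ} {L : Fin n → MvPolynomial (Fin r) ℂ} (hL : ∀ i, (L i).totalDegree ≤ 1)
    (f : MvPolynomial (Fin n) ℂ) : (aeval L f).totalDegree ≤ f.totalDegree := by
  conv_lhs => rw [f.as_sum, map_sum]
  refine totalDegree_finsetSum_le fun m hm => ?_
  rw [aeval_monomial, Finsupp.prod_fintype _ _ (fun i => pow_zero _)]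
  refine (totalDegree_mul _ _).trans ?_
  rw [algebraMap_eq, totalDegree_C, zero_add]
  refine (totalDegree_finsetProd _ _).trans ?_
  refine le_trans ?_ (le_totalDegree hm)
  rw [Finsupp.sum_fintype _ _ (fun _ => rfl)]
  refine Finset.sum_le_sum fun i _ => (totalDegree_pow _ _).trans ?_
  calc m i * (L i).totalDegree ≤ m i * 1 := Nat.mul_le_mul_left _ (hL i)
    _ = m i := mul_one _

/-- **uniform bound for the number of zeros**: the constant `c` depends only on the curve `V`; it works for
the images of `V` under all polynomial maps of degree at most one -/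
theorem count_pClosure (hV : IsSubvariety V) (h1 : dim V = 1) :
    ∃ c : ℕ, ∀ (n : ℕ) (L : Fin n → MvPolynomial (Fin r) ℂ), (∀ i, (L i).totalDegree ≤ 1) →
      ∀ g : MvPolynomial (Fin n) ℂ, (∃ z ∈ pClosure L V, eval z g ≠ 0) →
        {z | z ∈ pClosure L V ∧ eval z g = 0}.Finite ∧
          {z | z ∈ pClosure L V ∧ eval z g = 0}.ncard ≤ c * g.totalDegree := by
  classical
  have hI := van_prime hV
  have hdom : IsDomain (MvPolynomial (Fin r) ℂ ⧸ vanishingIdeal ℂ V) := Ideal.Quotient.isDomain _
  obtain ⟨c, hc⟩ := exists_hilb hV h1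
  refine ⟨c, fun n L hL g hg => ?_⟩
  set π := Ideal.Quotient.mkₐ ℂ (vanishingIdeal ℂ V) with hπ
  set ψ : MvPolynomial (Fin n) ℂ →ₐ[ℂ] MvPolynomial (Fin r) ℂ ⧸ vanishingIdeal ℂ V := π.comp (aeval L) with hψ
  have hker : ∀ f, ψ f = 0 ↔ f ∈ vanishingIdeal ℂ (pClosure L V) := by
    intro f
    rw [van_pClosure, van_pImage, Ideal.mem_comap]
    exact Ideal.Quotient.eq_zero_iff_mem
  have hg' : ψ g ≠ 0 := by
    obtain ⟨z, hz, hzg⟩ := hg
    intro h
    exact hzg ((mem_van.1 ((hker g).1 h)) z hz)
  have hcψ : ∀ D, finrank ℂ (Submodule.map ψ.toLinearMap (restrictTotalDegree (Fin n) ℂ D)) ≤ c * (D + 1) := by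
    intro D
    have : Module.Finite ℂ (Submodule.map π.toLinearMap (restrictTotalDegree (Fin r) ℂ D)) :=
      Module.Finite.map _ _
    refine (Submodule.finrank_mono ?_).trans (hc D)
    rintro _ ⟨f, hf, rfl⟩
    refine ⟨aeval L f, ?_, rfl⟩
    rw [SetLike.mem_coe, mem_restrictTotalDegree] at hf ⊢
    exact (totalDegree_aeval_le hL f).trans hf
  have hT : ∀ T : Finset (Fin n → ℂ), (T : Set (Fin n → ℂ)) ⊆ {z | z ∈ pClosure L V ∧ eval z g = 0} →
      T.card ≤ c * g.totalDegree := by
    intro T hTs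
    refine card_zeros hcψ hg' T (fun z hz f hf => ?_) fun z hz => (hTs hz).2
    exact mem_van.1 ((hker f).1 hf) z (hTs hz).1
  have hfin : {z | z ∈ pClosure L V ∧ eval z g = 0}.Finite := by
    by_contra hinf
    obtain ⟨T, hTs, hTc⟩ := Set.Infinite.exists_subset_card_eq (Set.not_finite.1 hinf) (c * g.totalDegree + 1)
    have := hT T hTs
    omega
  refine ⟨hfin, ?_⟩
  have h2 := hT hfin.toFinset (by rw [Set.Finite.coe_toFinset])
  rwa [← Set.ncard_eq_toFinset_card _ hfin] at h2

end curve

end Pool.Agent.Helper22.AA
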