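import Pool.Agent.Helper20.NB.LocalN

/-! # Case B at the points at which the coordinates are not integral

At a point at which `v (z i) = v (z j)` and `v (z k) = v (z l)`, all at least one, two pairs of isogenous
coordinates give two ratios near roots of unity to the first order; their orders are bounded. -/

open MvPolynomial Finset

namespace Pool.Agent.Helper22.AA
open Pool.Agent.Helper11.ZP Pool.Agent.Helper11.ZU Pool.Agent.Helper20.ZD Pool.Agent.Helper11.LC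
  Pool.Agent.Helper69.DL Pool.Agent.Helper36.DL Pool.Agent.Helper20.DL Pool.Agent.Helper22.DL
  Pool.Agent.Helper20.NB Pool.Agent.Helper81.DL

variable {n : ℕ} {v : AbsoluteValue ℂ ℝ} {p m M : ℕ} {lam a b c : Fin n → ℂ}

/-- **case B at all points with equal absolute values**, uniformly; `k = i` and `k = j` are allowed -/
def UnifBP (v : AbsoluteValue ℂ ℝ) (p : ℕ) (Z : Set (Fin n → ℂ)) : Prop :=
  ∃ B : ℕ, ∀ (m : ℕ) (lam a : Fin n → ℂ), AffAt v p m lam a → ∀ z ∈ Z, ∀ (i j k l : Fin n) (N N' : ℕ),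
    1 ≤ v (z i) → v (z i) = v (z j) → 1 ≤ v (z k) → v (z k) = v (z l) → i ≠ j → k ≠ l → l ≠ i → l ≠ j →
      CyclicIsog N (lam i * z i + a i) (lam j * z j + a j) →
        CyclicIsog N' (lam k * z k + a k) (lam l * z l + a l) → N' ≤ B

/-- relations between the monomials with exponents `-1, 0, 1` -/
def RelOne (v : AbsoluteValue ℂ ℝ) (p : ℕ) (V : Set (Fin n → ℂ)) : Prop :=
  ∀ a b : Fin n → ℤ, (∀ i, |a i| ≤ 1) → (∀ i, |b i| ≤ 1) →
    (∀ s t : ℤ, (∀ i, s * a i + t * b i = 0) → s = 0 ∧ t = 0) →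
      ∃ H : MvPolynomial (Fin 2) ℤ, GoodRel v p H ∧ Holds H V a b

lemma norm_v_xP (hvp0 : 0 < v (p : ℂ)) (h : Norm v p m lam a) (hv : IsNonarchimedean v) (hvp : v (p : ℂ) < 1)
    {z : Fin n → ℂ} {r : Fin n} (hr : 1 ≤ v (z r)) :
    v (lam r * z r + a r) = (v (p : ℂ) ^ m)⁻¹ * v (z r) := by
  have hc0 := inv_pos.2 (pow_pos hvp0 m)
  have h1 : v (lam r * z r) = (v (p : ℂ) ^ m)⁻¹ * v (z r) := by rw [map_mul, h.v_lam hvp0]
  have h2 : v (a r) < (v (p : ℂ) ^ m)⁻¹ := by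
    rw [← one_div, lt_div_iff₀ (pow_pos hvp0 m)]
    exact (h.v_a hvp0 r).trans_lt hvp
  have h3 : (v (p : ℂ) ^ m)⁻¹ ≤ (v (p : ℂ) ^ m)⁻¹ * v (z r) := le_mul_of_one_le_right hc0.le hr
  rw [v_add_eq hv (by rw [h1]; exact h2.trans_le h3), h1]

/-- one pair of isogenous coordinates, with the first order term -/
lemma ratio_nearP (hvp0 : 0 < v (p : ℂ)) (h : Norm v p m lam a) (hv : IsNonarchimedean v) (hvp : v (p : ℂ) < 1)
    {z : Fin n → ℂ} {i j : Fin n}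
    (hi : 1 ≤ v (z i)) (hij : v (z i) = v (z j)) {N : ℕ}
    (hN : CyclicIsog N (lam i * z i + a i) (lam j * z j + a j)) :
    ∃ (g : ℕ) (ζ : ℂ), 0 < g ∧ N = g ^ 2 ∧ IsPrimitiveRoot ζ g ∧
      v (z i / z j - lam j / lam i * ζ * (1 + p * (betaC lam a p j * (z j)⁻¹ +
        (-betaC lam a p i) * (z i)⁻¹))) < v (p : ℂ) := by
  have hp0 := hvp0
  have hj : 1 ≤ v (z j) := hij ▸ hi
  have hpC : (p : ℂ) ≠ 0 := (AbsoluteValue.pos_iff v).1 hp0
  have hN0 : 0 < N := Nat.pos_of_ne_zero fun h0 => not_isog_zero (h0 ▸ hN)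
  have hc0 : 0 < v (p : ℂ) ^ m := pow_pos hp0 m
  have hcq := h.pow_le hp0 hvp
  have hl0 := h.lam_ne hp0
  have hvz0 : ∀ {r}, 1 ≤ v (z r) → 0 < v (z r) := fun {r} hr => one_pos.trans_le hr
  have hz0 : ∀ {r}, 1 ≤ v (z r) → z r ≠ 0 := fun {r} hr => (AbsoluteValue.pos_iff v).1 (hvz0 hr)
  have hvx : ∀ {r}, 1 ≤ v (z r) → v (lam r * z r + a r) = (v (p : ℂ) ^ m)⁻¹ * v (z r) := fun {r} hr =>
    norm_v_xP hp0 h hv hvp hr
  have hci : (1 : ℝ) < (v (p : ℂ) ^ m)⁻¹ := (one_lt_inv₀ hc0).2 (hcq.trans_lt hvp)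
  obtain ⟨g, ζ, hg, hNg, hζ, hd⟩ := sharp_rigid hv (x := lam i * z i + a i) (y := lam j * z j + a j)
    (by rw [hvx hi]; exact hci.trans_le (le_mul_of_one_le_right (zero_le_one.trans hci.le) hi))
    (by rw [hvx hi, hvx hj, hij]) hN0 hN
  refine ⟨g, ζ, hg, hNg, hζ, ?_⟩
  have hd1 : (v (lam i * z i + a i))⁻¹ ≤ v (p : ℂ) ^ m := by
    rw [hvx hi, mul_inv, inv_inv]
    exact mul_le_of_le_one_right hc0.le (inv_le_one_of_one_le₀ hi)
  have hd' := hd.trans (pow_le_pow_left₀ (inv_nonneg.2 (AbsoluteValue.nonneg v _)) hd1 2)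
  -- the small quantities
  set w : Fin n → ℂ := fun r => (a r - 744) / (lam r * z r) with hw
  have hwv : ∀ {r}, 1 ≤ v (z r) → v (w r) ≤ v (p : ℂ) := fun {r} hr => by
    have h1 : w r = betaC lam a p r * p * (z r)⁻¹ := by
      simp only [hw, betaC]
      have := hl0 r
      have := hz0 hr
      field_simp
    rw [h1, map_mul, map_mul, map_inv₀]
    refine (mul_le_of_le_one_right (mul_nonneg (AbsoluteValue.nonneg v _) hp0.le)
      (inv_le_one_of_one_le₀ hr)).trans ?_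
    exact mul_le_of_le_one_left hp0.le (h.v_beta hp0 hv hvp r)
  have hx : ∀ {r}, 1 ≤ v (z r) → (lam r * z r + a r - 744 : ℂ) = lam r * z r * (1 + w r) := fun {r} hr => by
    simp only [hw]
    have := hl0 r
    have := hz0 hr
    field_simp
    ring
  have h1w : ∀ {r}, 1 ≤ v (z r) → v (1 + w r) = 1 := fun {r} hr => by
    rw [v_add_eq hv (by rw [map_one]; exact (hwv hr).trans_lt hvp), map_one]
  have h1w0 : ∀ {r}, 1 ≤ v (z r) → 1 + w r ≠ 0 := fun {r} hr => by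
    rw [← AbsoluteValue.ne_zero_iff v, h1w hr]
    exact one_ne_zero
  have hμ : v (lam j / lam i) = 1 := h.v_ratio hp0 i j
  have hvζ : v ζ = 1 := by
    have h2 : v ζ ^ g = 1 := by rw [← map_pow, hζ.pow_eq_one, map_one]
    exact (pow_eq_one_iff_of_nonneg (AbsoluteValue.nonneg v _) hg.ne').1 h2
  set ε := (lam i * z i + a i - 744 : ℂ) / (lam j * z j + a j - 744) - ζ with hε
  have hεv : v ε ≤ v (p : ℂ) ^ 2 := hd'.trans (pow_le_pow_left₀ hc0.le hcq 2)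
  have e1 : z i / z j = lam j / lam i * (ζ + ε) * (1 + w j) / (1 + w i) := by
    rw [hε, hx hi, hx hj]
    have := hl0 i
    have := hl0 j
    have := hz0 hi
    have := hz0 hj
    have := h1w0 hi
    have := h1w0 hj
    field_simp
    ring
  have e2 : (p : ℂ) * (betaC lam a p j * (z j)⁻¹ + (-betaC lam a p i) * (z i)⁻¹) = w j - w i := by
    simp only [hw, betaC]
    have := hl0 i
    have := hl0 j
    have := hz0 hi
    have := hz0 hj
    field_simp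
    ring
  have e3 : z i / z j - lam j / lam i * ζ * (1 + (w j - w i)) =
      lam j / lam i * ((ε * (1 + w j) + ζ * (w i * (w i - w j))) / (1 + w i)) := by
    rw [e1]
    have := h1w0 hi
    field_simp
    ring
  rw [e2, e3, map_mul, hμ, one_mul, map_div₀, h1w hi, div_one]
  have h2 : v (p : ℂ) ^ 2 < v (p : ℂ) := by
    rw [pow_two]
    exact mul_lt_of_lt_one_left hp0 hvp
  refine lt_of_le_of_lt ((hv _ _).trans (max_le ?_ ?_)) h2
  · rw [map_mul, h1w hj, mul_one]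
    exact hεv
  · rw [map_mul, hvζ, one_mul, map_mul, pow_two]
    exact mul_le_mul (hwv hi) ((v_sub_le hv _ _).trans (max_le (hwv hi) (hwv hj)))
      (AbsoluteValue.nonneg v _) hp0.le

/-- the ratio of two isogenous coordinates is near a root of unity, to the first order -/
lemma ratio_finalP (hv : IsNonarchimedean v) (hvp0 : 0 < v (p : ℂ)) (hvp : v (p : ℂ) < 1) (hb : Base v p M b c)
    (h : Cls v p b c m lam a) {τ δ : Fin n → ℂ} (hτ : ∀ i, v (τ i) = 1) (hδ : ∀ i, v (δ i) ≤ 1)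
    (hτδ : ∀ i, b i = τ i * (1 + p * δ i)) {z : Fin n → ℂ} {i j : Fin n}
    (hi : 1 ≤ v (z i)) (hij : v (z i) = v (z j)) {N : ℕ}
    (hN : CyclicIsog N (lam i * z i + a i) (lam j * z j + a j)) :
    ∃ (g : ℕ) (ζ : ℂ), 0 < g ∧ N = g ^ 2 ∧ IsPrimitiveRoot ζ g ∧
      v (z i / z j - τ j / τ i * ζ * (1 + p * ((δ j - δ i) + (bet p b c (kap m) j * (z j)⁻¹ +
        (-bet p b c (kap m) i) * (z i)⁻¹)))) < v (p : ℂ) := by
  have hj : 1 ≤ v (z j) := hij ▸ hi
  have hn := h.norm hv hvp hb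
  obtain ⟨g, ζ, hg, hNg, hζ, hd⟩ := ratio_nearP hvp0 hn hv hvp hi hij hN
  refine ⟨g, ζ, hg, hNg, hζ, ?_⟩
  have vζ : v ζ = 1 := val_root hg hζ.pow_eq_one
  set E := betaC lam a p j * (z j)⁻¹ + (-betaC lam a p i) * (z i)⁻¹ with hE
  set E' := bet p b c (kap m) j * (z j)⁻¹ + (-bet p b c (kap m) i) * (z i)⁻¹ with hE'
  have hzi : v (z i)⁻¹ ≤ 1 := by rw [map_inv₀]; exact inv_le_one_of_one_le₀ hi
  have hzj : v (z j)⁻¹ ≤ 1 := by rw [map_inv₀]; exact inv_le_one_of_one_le₀ hj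
  have hEv : v E ≤ 1 := by
    rw [hE]
    refine (hv _ _).trans (max_le ?_ ?_)
    · rw [map_mul]
      exact mul_le_one₀ (hn.v_beta hvp0 hv hvp j) (AbsoluteValue.nonneg v _) hzj
    · rw [map_mul, map_neg_eq_map]
      exact mul_le_one₀ (hn.v_beta hvp0 hv hvp i) (AbsoluteValue.nonneg v _) hzi
  have hEE : v (E - E') < 1 := by
    have e : E - E' = (betaC lam a p j - bet p b c (kap m) j) * (z j)⁻¹ -
        (betaC lam a p i - bet p b c (kap m) i) * (z i)⁻¹ := by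
      rw [hE, hE']
      ring
    rw [e]
    refine (v_sub_le hv _ _).trans_lt (max_lt ?_ ?_)
    · rw [map_mul]
      exact (mul_le_of_le_one_right (AbsoluteValue.nonneg v _) hzj).trans_lt (beta_near hv hvp0 hvp hb h j)
    · rw [map_mul]
      exact (mul_le_of_le_one_right (AbsoluteValue.nonneg v _) hzi).trans_lt (beta_near hv hvp0 hvp hb h i)
  have hpE : v (1 + p * E) ≤ 1 := by
    refine (hv _ _).trans (max_le (by rw [map_one]) ?_)
    rw [map_mul]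
    exact mul_le_one₀ hvp.le (v.nonneg _) hEv
  have hp0 : (p : ℂ) ≠ 0 := (AbsoluteValue.pos_iff v).1 hvp0
  have hμ : v (lam j / lam i - b j / b i) < v (p : ℂ) := by
    have e : lam j / lam i = ((p : ℂ) ^ m * lam j) / ((p : ℂ) ^ m * lam i) :=
      (mul_div_mul_left _ _ (pow_ne_zero m hp0)).symm
    rw [e]
    exact div_near hv (hn.lam_one j).le (hn.lam_one i) (hb.unit i) (h.lam_near j) (h.lam_near i)
  have hf := first_ratio hv hvp0 hvp (hδ j) (hδ i) hEv hEE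
  have hτ0 : τ i ≠ 0 := by
    rw [← AbsoluteValue.ne_zero_iff v, hτ i]
    exact one_ne_zero
  have hδ0 : (1 + p * δ i : ℂ) ≠ 0 := by
    intro h0
    have h1 := hb.unit i
    rw [hτδ i, h0, mul_zero, map_zero] at h1
    exact zero_ne_one h1
  have e : z i / z j - τ j / τ i * ζ * (1 + p * ((δ j - δ i) + E')) =
      (z i / z j - lam j / lam i * ζ * (1 + p * E)) + ((lam j / lam i - b j / b i) * (ζ * (1 + p * E)) +
        τ j / τ i * ζ * ((1 + p * δ j) / (1 + p * δ i) * (1 + p * E) - (1 + p * ((δ j - δ i) + E')))) := by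
    rw [hτδ i, hτδ j]
    field_simp
    ring
  rw [e]
  refine (hv _ _).trans_lt (max_lt hd ((hv _ _).trans_lt (max_lt ?_ ?_)))
  · rw [map_mul, map_mul, vζ, one_mul]
    exact lt_of_le_of_lt (mul_le_of_le_one_right (v.nonneg _) hpE) hμ
  · rw [map_mul, map_mul, map_div₀, hτ, hτ, vζ, div_one, one_mul, one_mul]
    exact hf

/-- the first order term -/
noncomputable def spoly4 (hv : IsNonarchimedean v) (d β β' : ball hv) (r r' : Fin 4) :
    MvPolynomial (Fin 4 ⊕ Fin 2) (ball hv) :=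
  C d + (C β * X (Sum.inl r') + C β' * X (Sum.inl r))

lemma wev_spoly4 (hv : IsNonarchimedean v) (d β β' : ball hv) (r r' : Fin 4) (u : Fin 4 → ℂ) (x y : ℂ) :
    wev hv (spoly4 hv d β β' r r') u x y = d + (β * u r' + β' * u r) := by
  rw [spoly4, wev, eval₂_add, eval₂_add, eval₂_mul, eval₂_mul, eval₂_C, eval₂_C, eval₂_C, eval₂_X, eval₂_X]
  rfl

/-- **case B at polar points** for a class of affine maps and one quadruple of indices -/
theorem classBP_one (hv : IsNonarchimedean v) (hp : p.Prime) (hvp : v (p : ℂ) < 1) {V : Set (Fin n → ℂ)}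
    (hrel : RelOne v p V) (hb : Base v p M b c) {i j k l : Fin n} (hij : i ≠ j) (hkl : k ≠ l)
    (hli : l ≠ i) (hlj : l ≠ j) :
    ∃ B : ℕ, ∀ (m : ℕ) (lam a : Fin n → ℂ), Cls v p b c m lam a → ∀ z ∈ V, ∀ (N N' : ℕ), 1 ≤ v (z i) →
      v (z i) = v (z j) → 1 ≤ v (z k) → v (z k) = v (z l) → CyclicIsog N (lam i * z i + a i) (lam j * z j + a j) →
        CyclicIsog N' (lam k * z k + a k) (lam l * z l + a l) → N' ≤ B := by
  classical
  have hp0 : (p : ℂ) ≠ 0 := by exact_mod_cast hp.ne_zero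
  have hvp0 : 0 < v (p : ℂ) := (AbsoluteValue.pos_iff v).2 hp0
  obtain ⟨τ, δ, hτM, hτ, hδ, hτδ⟩ := exists_teich hv hp hvp hb
  -- the main relation
  obtain ⟨H, hH, hHV⟩ := hrel (diff i j) (diff k l) (abs_diff_le i j) (abs_diff_le k l)
    (diff_indep hij hkl hli hlj)
  have hnegv : ∀ t r : Fin n, |negv t r| ≤ 1 := by
    intro t r
    unfold negv
    split_ifs <;> simp
  set q : Fin 4 → Fin n := ![i, j, k, l] with hq
  -- the other relations
  have hG : ∀ s : Fin 4, ∃ G : MvPolynomial (Fin 2) ℤ, GoodRel v p G ∧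
      Holds G V (negv (q s)) (if s < 2 then diff i j else diff k l) := by
    intro s
    fin_cases s
    · exact hrel (negv i) (diff i j) (hnegv i) (abs_diff_le i j) (negv_indep_left hij)
    · exact hrel (negv j) (diff i j) (hnegv j) (abs_diff_le i j) (negv_indep_right hij)
    · exact hrel (negv k) (diff k l) (hnegv k) (abs_diff_le k l) (negv_indep_left hkl)
    · exact hrel (negv l) (diff k l) (hnegv l) (abs_diff_le k l) (negv_indep_right hkl)
  choose G hGg hGm using hG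
  set jj : Fin 4 → Fin 2 := fun s => if s < 2 then 0 else 1 with hjj
  -- the first order terms
  have hκ : ∀ κ : ℂ, v κ ≤ 1 → ∃ B : ℕ, ∀ (x y : ℂ) (u : Fin 4 → ℂ) (ζ₁ ζ₂ : ℂ) (g₁ g₂ : ℕ), 0 < g₁ →
      0 < g₂ → IsPrimitiveRoot ζ₁ g₁ → IsPrimitiveRoot ζ₂ g₂ → v x ≤ 1 → v y ≤ 1 → (∀ i, v (u i) ≤ 1) →
      (∀ i, ev (G i) (u i) (![x, y] (jj i)) = 0) → ev H x y = 0 →
      v (x - ζ₁ * (1 + p * ((δ j - δ i) + (bet p b c κ j * u 1 + (-bet p b c κ i) * u 0)))) <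
        v (p : ℂ) →
      v (y - ζ₂ * (1 + p * ((δ l - δ k) + (bet p b c κ l * u 3 + (-bet p b c κ k) * u 2)))) <
        v (p : ℂ) → g₁ ≤ B ∧ g₂ ≤ B := by
    intro κ hκ
    have hsub : ∀ {s t : ℂ}, v s ≤ 1 → v t ≤ 1 → s - t ∈ ball hv := fun {s t} hs ht =>
      (v_sub_le hv _ _).trans (max_le hs ht)
    have hneg : ∀ {s : ℂ}, v s ≤ 1 → -s ∈ ball hv := fun {s} hs => by
      rw [mem_ball, map_neg_eq_map]
      exact hs
    obtain ⟨B, hB⟩ := torsion_near hv hp hvp hH hGg jj 0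
      (spoly4 hv ⟨δ j - δ i, hsub (hδ j) (hδ i)⟩ ⟨bet p b c κ j, v_bet hv hvp0 hb hκ j⟩
        ⟨-bet p b c κ i, hneg (v_bet hv hvp0 hb hκ i)⟩ 0 1)
      (spoly4 hv ⟨δ l - δ k, hsub (hδ l) (hδ k)⟩ ⟨bet p b c κ l, v_bet hv hvp0 hb hκ l⟩
        ⟨-bet p b c κ k, hneg (v_bet hv hvp0 hb hκ k)⟩ 2 3)
    refine ⟨B, fun x y u ζ₁ ζ₂ g₁ g₂ h1 h2 h3 h4 h5 h6 h7 h8 h9 h10 h11 => ?_⟩
    refine hB x y u ζ₁ ζ₂ g₁ g₂ h1 h2 h3 h4 h5 h6 h7 (fun i => ?_) ?_ ?_ ?_
    · rw [h8 i, map_zero]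
      exact one_pos
    · rw [h9, wev, eval₂_zero, mul_zero, sub_zero, map_zero]
      exact hvp0
    · rw [wev_spoly4]
      exact h10
    · rw [wev_spoly4]
      exact h11
  obtain ⟨B₁, hB₁⟩ := hκ (kap 1) (v_kap hv 1)
  obtain ⟨B₂, hB₂⟩ := hκ (kap 2) (v_kap hv 2)
  refine ⟨(max B₁ B₂ * M) ^ 2, ?_⟩
  intro m lam a hcls z hz N N' hi hij' hk hkl' hN hN'
  have hj : 1 ≤ v (z j) := hij' ▸ hi
  have hl' : 1 ≤ v (z l) := hkl' ▸ hk
  have hz0 : ∀ {r}, 1 ≤ v (z r) → z r ≠ 0 := fun {r} hr => (AbsoluteValue.pos_iff v).1 (one_pos.trans_le hr)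
  have hqu : ∀ r, 1 ≤ v (z (q r)) := by
    intro r
    fin_cases r
    · exact hi
    · exact hj
    · exact hk
    · exact hl'
  obtain ⟨g₁, ζ₁, a1, a2, a3, a4⟩ := ratio_finalP hv hvp0 hvp hb hcls hτ hδ hτδ hi hij' hN
  obtain ⟨g₂, ζ₂, b1, b2, b3, b4⟩ := ratio_finalP hv hvp0 hvp hb hcls hτ hδ hτδ hk hkl' hN'
  -- the roots of unity
  have hroot : ∀ {s t : Fin n} {ζ : ℂ} {g : ℕ}, 0 < g → IsPrimitiveRoot ζ g →
      0 < orderOf (τ s / τ t * ζ) ∧ g ≤ orderOf (τ s / τ t * ζ) * M := by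
    intro s t ζ g hg hζ
    have hpow : (τ s / τ t * ζ) ^ (g * M) = 1 := by
      rw [mul_pow, div_pow, mul_comm g M, pow_mul, pow_mul, pow_mul, hτM, hτM, one_pow, div_one, one_mul,
        ← pow_mul, mul_comm M g, pow_mul, hζ.pow_eq_one, one_pow]
    have h1 : 0 < orderOf (τ s / τ t * ζ) := orderOf_pos_iff.2 (isOfFinOrder_iff_pow_eq_one.2
      ⟨g * M, Nat.mul_pos hg hb.pos, hpow⟩)
    refine ⟨h1, Nat.le_of_dvd (Nat.mul_pos h1 hb.pos) (hζ.dvd_of_pow_eq_one _ ?_)⟩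
    have hst : τ s / τ t ≠ 0 := by
      rw [← AbsoluteValue.ne_zero_iff v, map_div₀, hτ, hτ, div_one]
      exact one_ne_zero
    have h2 : (τ s / τ t) ^ (orderOf (τ s / τ t * ζ) * M) = 1 := by
      rw [mul_comm, pow_mul, div_pow, hτM, hτM, div_one, one_pow]
    have h3 : (τ s / τ t * ζ) ^ (orderOf (τ s / τ t * ζ) * M) = 1 := by
      rw [pow_mul, pow_orderOf_eq_one, one_pow]
    rw [mul_pow, h2, one_mul] at h3
    exact h3
  obtain ⟨c1, -⟩ := hroot (s := j) (t := i) a1 a3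
  obtain ⟨c2, c3⟩ := hroot (s := l) (t := k) b1 b3
  set u : Fin 4 → ℂ := fun s => (z (q s))⁻¹ with hu
  have huv : ∀ s, v (u s) ≤ 1 := by
    intro s
    rw [hu]
    change v (z (q s))⁻¹ ≤ 1
    rw [map_inv₀]
    exact inv_le_one_of_one_le₀ (hqu s)
  have hx1 : v (z i / z j) = 1 := by
    rw [map_div₀, hij']
    exact div_self (one_pos.trans_le hj).ne'
  have hy1 : v (z k / z l) = 1 := by
    rw [map_div₀, hkl']
    exact div_self (one_pos.trans_le hl').ne'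
  have hne : ∀ {q r}, z q = 0 → 1 ≤ v (z r) → q ≠ r := fun {q r} hq hr h => hz0 hr (h ▸ hq)
  have hHz : ev H (z i / z j) (z k / z l) = 0 := by
    have h3 := hHV z hz (fun q hq => by
      unfold diff
      simp [hne hq hi, hne hq hj, hne hq hk, hne hq hl'])
    rwa [prod_diff z (hz0 hi) (hz0 hj), prod_diff z (hz0 hk) (hz0 hl')] at h3
  have hGz : ∀ s, ev (G s) (u s) (![z i / z j, z k / z l] (jj s)) = 0 := by
    intro s
    have h1 := hGm s z hz (fun t ht => by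
      have h0 : t ≠ q s := hne ht (hqu s)
      have hi' := hne ht hi
      have hj' := hne ht hj
      have hk' := hne ht hk
      have hl'' := hne ht hl'
      have e1 : negv (q s) t = 0 := if_neg h0
      have e2 : diff i j t = 0 := by
        unfold diff
        rw [if_neg hi', if_neg hj', sub_zero]
      have e3 : diff k l t = 0 := by
        unfold diff
        rw [if_neg hk', if_neg hl'', sub_zero]
      refine ⟨e1.ge, ?_⟩
      split_ifs
      · exact e2.ge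
      · exact e3.ge)
    rw [prod_negv] at h1
    by_cases hs : s < 2
    · rw [if_pos hs, prod_diff z (hz0 hi) (hz0 hj)] at h1
      have h2 : jj s = 0 := if_pos hs
      rw [h2]
      exact h1
    · rw [if_neg hs, prod_diff z (hz0 hk) (hz0 hl')] at h1
      have h2 : jj s = 1 := if_neg hs
      rw [h2]
      exact h1
  have hcon : ∀ B' : ℕ, (∀ (x y : ℂ) (u : Fin 4 → ℂ) (ζ₁ ζ₂ : ℂ) (g₁ g₂ : ℕ), 0 < g₁ →
      0 < g₂ → IsPrimitiveRoot ζ₁ g₁ → IsPrimitiveRoot ζ₂ g₂ → v x ≤ 1 → v y ≤ 1 → (∀ i, v (u i) ≤ 1) →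
      (∀ i, ev (G i) (u i) (![x, y] (jj i)) = 0) → ev H x y = 0 →
      v (x - ζ₁ * (1 + p * ((δ j - δ i) + (bet p b c (kap m) j * u 1 +
        (-bet p b c (kap m) i) * u 0)))) < v (p : ℂ) →
      v (y - ζ₂ * (1 + p * ((δ l - δ k) + (bet p b c (kap m) l * u 3 +
        (-bet p b c (kap m) k) * u 2)))) < v (p : ℂ) → g₁ ≤ B' ∧ g₂ ≤ B') → B' ≤ max B₁ B₂ →
      N' ≤ (max B₁ B₂ * M) ^ 2 := by
    intro B' hB' hle
    obtain ⟨-, h2⟩ := hB' (z i / z j) (z k / z l) u _ _ _ _ c1 c2 (IsPrimitiveRoot.orderOf _)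
      (IsPrimitiveRoot.orderOf _) hx1.le hy1.le huv hGz hHz a4 b4
    rw [b2]
    exact Nat.pow_le_pow_left (c3.trans (Nat.mul_le_mul_right M (h2.trans hle))) 2
  by_cases hm : m = 1
  · subst hm
    exact hcon B₁ hB₁ (le_max_left _ _)
  · have h1 : Helper20.NB.kap m = Helper20.NB.kap 2 := by
      unfold Helper20.NB.kap
      rw [if_neg hm, if_neg (by norm_num)]
    refine hcon B₂ ?_ (le_max_right _ _)
    rw [h1]
    exact hB₂

/-- **case B at polar points** for a class of affine maps -/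
theorem classBP (hv : IsNonarchimedean v) (hp : p.Prime) (hvp : v (p : ℂ) < 1) {V : Set (Fin n → ℂ)}
    (hrel : RelOne v p V) (hb : Base v p M b c) :
    ∃ B : ℕ, ∀ (m : ℕ) (lam a : Fin n → ℂ), Cls v p b c m lam a → ∀ z ∈ V, ∀ (i j k l : Fin n) (N N' : ℕ),
      1 ≤ v (z i) → v (z i) = v (z j) → 1 ≤ v (z k) → v (z k) = v (z l) → i ≠ j → k ≠ l → l ≠ i → l ≠ j →
        CyclicIsog N (lam i * z i + a i) (lam j * z j + a j) →
          CyclicIsog N' (lam k * z k + a k) (lam l * z l + a l) → N' ≤ B := by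
  classical
  have h2 : ∀ q : Fin n × Fin n × Fin n × Fin n, ∃ B : ℕ, q.1 ≠ q.2.1 → q.2.2.1 ≠ q.2.2.2 →
      q.2.2.2 ≠ q.1 → q.2.2.2 ≠ q.2.1 →
      ∀ (m : ℕ) (lam a : Fin n → ℂ), Cls v p b c m lam a → ∀ z ∈ V, ∀ (N N' : ℕ), 1 ≤ v (z q.1) →
        v (z q.1) = v (z q.2.1) → 1 ≤ v (z q.2.2.1) → v (z q.2.2.1) = v (z q.2.2.2) →
          CyclicIsog N (lam q.1 * z q.1 + a q.1) (lam q.2.1 * z q.2.1 + a q.2.1) →
            CyclicIsog N' (lam q.2.2.1 * z q.2.2.1 + a q.2.2.1) (lam q.2.2.2 * z q.2.2.2 + a q.2.2.2) →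
              N' ≤ B := by
    rintro ⟨i, j, k, l⟩
    by_cases h : i ≠ j ∧ k ≠ l ∧ l ≠ i ∧ l ≠ j
    · obtain ⟨B, hB⟩ := classBP_one hv hp hvp hrel hb h.1 h.2.1 h.2.2.1 h.2.2.2
      exact ⟨B, fun _ _ _ _ => hB⟩
    · exact ⟨0, fun a b c d => absurd ⟨a, b, c, d⟩ h⟩
  choose B hB using h2
  refine ⟨univ.sup B, fun m lam a h z hz i j k l N N' hi hj hk hl' hij hkl hli hlj hN hN' => ?_⟩
  exact (hB (i, j, k, l) hij hkl hli hlj m lam a h z hz N N' hi hj hk hl' hN hN').trans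
    (Finset.le_sup (mem_univ (i, j, k, l)))

/-- finitely many classes of affine maps cover the parameters in the closure of `ℚ` -/
theorem exists_class (hv : IsNonarchimedean v) (hp : p.Prime) (hvp : v (p : ℂ) < 1) (h : AffAt v p m lam a) :
    ∃ s : Fin n → Fin (p ^ 2) × Fin (p ^ 2),
      Base v p (p - 1) (fun i => (((s i).1 : ℕ) : ℂ)) (fun i => (((s i).2 : ℕ) : ℂ)) ∧
      Cls v p (fun i => (((s i).1 : ℕ) : ℂ)) (fun i => (((s i).2 : ℕ) : ℂ)) m lam a := by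
  have hvp0 : 0 < v (p : ℂ) := (AbsoluteValue.pos_iff v).2 (by exact_mod_cast hp.ne_zero)
  have hsq : v (p : ℂ) ^ 2 < v (p : ℂ) := by
    rw [pow_two]
    exact mul_lt_of_lt_one_left hvp0 hvp
  choose q hq1 hq2 using fun i => (h.lam_mem i).exists_lt hv hp 2
  choose r hr1 hr2 using fun i => (h.a_mem i).exists_lt hv hp 2
  have hqv : ∀ i, v (q i : ℂ) = 1 := fun i => by
    rw [← h.lam_one i]
    refine v_eq_of_sub_lt hv ?_
    rw [h.lam_one i, v_sub_comm]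
    exact (hq2 i).trans_lt (hsq.trans hvp)
  have hrv : ∀ i, v (r i : ℂ) ≤ v (p : ℂ) := fun i => by
    rw [show (r i : ℂ) = (p : ℂ) ^ m * a i - ((p : ℂ) ^ m * a i - r i) by ring]
    exact (v_sub_le hv _ _).trans (max_le (h.a_le i) ((hr2 i).trans hsq.le))
  exact ⟨fun i => (⟨q i, hq1 i⟩, ⟨r i, hr1 i⟩), base_of_nat hv hp hvp hqv hrv,
    h.one_le, fun i => (hq2 i).trans_lt hsq, fun i => (hr2 i).trans_lt hsq⟩

/-- **case B at all points with equal absolute values**, uniformly -/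
theorem unifBP (hv : IsNonarchimedean v) (hp : p.Prime) (hvp : v (p : ℂ) < 1) {V : Set (Fin n → ℂ)}
    (hrel : RelOne v p V) : UnifBP v p V := by
  classical
  have h1 : ∀ s : Fin n → Fin (p ^ 2) × Fin (p ^ 2), ∃ B : ℕ,
      Base v p (p - 1) (fun i => (((s i).1 : ℕ) : ℂ)) (fun i => (((s i).2 : ℕ) : ℂ)) →
      ∀ (m : ℕ) (lam a : Fin n → ℂ), Cls v p (fun i => (((s i).1 : ℕ) : ℂ)) (fun i => (((s i).2 : ℕ) : ℂ)) m lam a →
      ∀ z ∈ V, ∀ (i j k l : Fin n) (N N' : ℕ),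
      1 ≤ v (z i) → v (z i) = v (z j) → 1 ≤ v (z k) → v (z k) = v (z l) → i ≠ j → k ≠ l → l ≠ i → l ≠ j →
        CyclicIsog N (lam i * z i + a i) (lam j * z j + a j) →
          CyclicIsog N' (lam k * z k + a k) (lam l * z l + a l) → N' ≤ B := by
    intro s
    by_cases hs : Base v p (p - 1) (fun i => (((s i).1 : ℕ) : ℂ)) (fun i => (((s i).2 : ℕ) : ℂ))
    · obtain ⟨B, hB⟩ := classBP hv hp hvp hrel hs
      exact ⟨B, fun _ => hB⟩
    · exact ⟨0, fun h => absurd h hs⟩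
  choose B hB using h1
  refine ⟨univ.sup B, fun m lam a h z hz i j k l N N' h1 h2 h3 h4 h5 h6 h7 h8 h9 h10 => ?_⟩
  obtain ⟨s, hbase, hcls⟩ := exists_class hv hp hvp h
  exact (hB s hbase m lam a hcls z hz i j k l N N' h1 h2 h3 h4 h5 h6 h7 h8 h9 h10).trans
    (Finset.le_sup (mem_univ s))

end Pool.Agent.Helper22.AA
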