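import Pool.Agent.Helper20.DL.Near
import Pool.Agent.Helper69.DL.Gap

/-! # Separated roots spread out -/

open Finset

namespace Pool.Agent.Helper22.AA
open Pool.Agent.Helper20.ZD Pool.Agent.Helper20.DL Pool.Agent.Helper69.DL

section general
variable {A : Type} [CommRing A] [IsDomain A]

/-- clearing denominators -/
lemma exists_map_eq (a : Polynomial (FractionRing A)) : ∃ (s : A) (a' : Polynomial A), s ≠ 0 ∧
    a'.map (algebraMap A (FractionRing A)) = Polynomial.C (algebraMap A (FractionRing A) s) * a := by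
  classical
  obtain ⟨s, hs, hA⟩ := IsLocalization.integerNormalization_spec (nonZeroDivisors A) a
  refine ⟨s, IsLocalization.integerNormalization (nonZeroDivisors A) a, nonZeroDivisors.ne_zero hs, ?_⟩
  rw [hA, Algebra.smul_def]
  rfl

/-- every nonzero polynomial divides, up to a constant, a power of a polynomial without multiple roots -/
lemma exists_sep [CharZero A] {R : Polynomial A} (hR : R ≠ 0) : ∃ (Q S B₀ B₁ : Polynomial A) (N : ℕ) (s d : A),
    s ≠ 0 ∧ d ≠ 0 ∧ Polynomial.C s * Q ^ N = R * S ∧ B₀ * Q + B₁ * Q.derivative = Polynomial.C d := by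
  classical
  set K := FractionRing A
  have hinj : Function.Injective (algebraMap A K) := IsFractionRing.injective A K
  have hR' : R.map (algebraMap A K) ≠ 0 := by
    rw [Polynomial.map_ne_zero_iff hinj]
    exact hR
  have : CharZero K := charZero_of_injective_algebraMap hinj
  set Q₀ := UniqueFactorizationMonoid.radical (R.map (algebraMap A K))
  have h1 : Squarefree Q₀ := UniqueFactorizationMonoid.squarefree_radical
  have h2 : Q₀.Separable := PerfectField.separable_iff_squarefree.2 h1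
  obtain ⟨N, S₀, hS⟩ := UniqueFactorizationMonoid.exists_dvd_radical_self_pow hR'
  obtain ⟨b₀, b₁, hb⟩ := h2
  obtain ⟨t, Q, ht, hQ⟩ := exists_map_eq Q₀
  obtain ⟨s, S, hs, hS'⟩ := exists_map_eq S₀
  obtain ⟨d₀, B₀, hd₀, hB₀⟩ := exists_map_eq b₀
  obtain ⟨d₁, B₁, hd₁, hB₁⟩ := exists_map_eq b₁
  refine ⟨Q, Polynomial.C (t ^ N) * S, Polynomial.C d₁ * B₀, Polynomial.C d₀ * B₁, N, s, t * d₀ * d₁, hs,
    mul_ne_zero (mul_ne_zero ht hd₀) hd₁, ?_, ?_⟩
  · apply Polynomial.map_injective _ hinj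
    rw [Polynomial.map_mul, Polynomial.map_pow, Polynomial.map_mul, Polynomial.map_mul, Polynomial.map_C,
      Polynomial.map_C, hQ, hS', mul_pow, map_pow, Polynomial.C_pow, hS]
    ring
  · apply Polynomial.map_injective _ hinj
    rw [Polynomial.map_add, Polynomial.map_mul, Polynomial.map_mul, Polynomial.map_mul, Polynomial.map_mul,
      ← Polynomial.derivative_map, Polynomial.map_C, Polynomial.map_C, Polynomial.map_C, hQ, hB₀, hB₁,
      Polynomial.derivative_C_mul]
    have e : Polynomial.C (algebraMap A K (t * d₀ * d₁)) = Polynomial.C (algebraMap A K t) *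
        Polynomial.C (algebraMap A K d₀) * Polynomial.C (algebraMap A K d₁) := by simp only [map_mul]
    rw [e]
    linear_combination (Polynomial.C (algebraMap A K t) * Polynomial.C (algebraMap A K d₀) *
      Polynomial.C (algebraMap A K d₁)) * hb

/-- separated roots spread out -/
theorem sep_spread [CharZero A] {R : Polynomial A} (hR : R ≠ 0) : ∃ P : A, P ≠ 0 ∧ ∀ (φ : A →+* ℂ)
    (v : AbsoluteValue ℂ ℝ), IsNonarchimedean v → (∀ a, v (φ a) ≤ 1) → v (φ P) = 1 →
    ∀ x y : ℂ, v x ≤ 1 → v y ≤ 1 → R.eval₂ φ x = 0 → R.eval₂ φ y = 0 → v (y - x) < 1 → y = x := by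
  obtain ⟨Q, S, B₀, B₁, N, s, d, hs, hd, h1, h2⟩ := exists_sep hR
  refine ⟨s * d, mul_ne_zero hs hd, fun φ v hv hφ hP x y hx hy hRx hRy hxy => ?_⟩
  rw [map_mul, map_mul] at hP
  have hs1 : v (φ s) = 1 := by
    refine le_antisymm (hφ s) ?_
    calc (1 : ℝ) = v (φ s) * v (φ d) := hP.symm
      _ ≤ v (φ s) := mul_le_of_le_one_right (v.nonneg _) (hφ d)
  have hd1 : v (φ d) = 1 := by rwa [hs1, one_mul] at hP
  have hs0 : φ s ≠ 0 := by
    rw [← AbsoluteValue.ne_zero_iff v, hs1]
    exact one_ne_zero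
  have hroot : ∀ z, R.eval₂ φ z = 0 → Q.eval₂ φ z = 0 := by
    intro z hz
    have h3 := congrArg (Polynomial.eval₂ φ z) h1
    rw [Polynomial.eval₂_mul, Polynomial.eval₂_mul, Polynomial.eval₂_C, hz, zero_mul,
      Polynomial.eval₂_pow] at h3
    exact eq_zero_of_pow_eq_zero ((mul_eq_zero.1 h3).resolve_left hs0)
  have hint : ∀ (F : Polynomial A) (z : ℂ), v z ≤ 1 → v (F.eval₂ φ z) ≤ 1 := by
    intro F z hz
    rw [Polynomial.eval₂_eq_sum_range]
    refine val_sum_le hv _ _ zero_le_one fun i _ => ?_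
    rw [map_mul, map_pow]
    exact mul_le_one₀ (hφ _) (pow_nonneg (v.nonneg _) _) (pow_le_one₀ (v.nonneg _) hz)
  have hQx := hroot x hRx
  have hQy := hroot y hRy
  have h3 : v (Q.derivative.eval₂ φ x) = 1 := by
    have h4 := congrArg (Polynomial.eval₂ φ x) h2
    rw [Polynomial.eval₂_add, Polynomial.eval₂_mul, Polynomial.eval₂_mul, Polynomial.eval₂_C, hQx, mul_zero,
      zero_add] at h4
    have h5 := congrArg v h4
    rw [map_mul, hd1] at h5
    refine le_antisymm (hint _ _ hx) ?_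
    calc (1 : ℝ) = v (B₁.eval₂ φ x) * v (Q.derivative.eval₂ φ x) := h5.symm
      _ ≤ _ := mul_le_of_le_one_left (v.nonneg _) (hint _ _ hx)
  by_contra hne
  have hne' : y - x ≠ 0 := sub_ne_zero.2 hne
  -- the expansion at `x`, in the ring of integers
  obtain ⟨k, hk1, hk⟩ : ∃ k : ℂ, v k ≤ 1 ∧
      Q.eval₂ φ y = Q.eval₂ φ x + Q.derivative.eval₂ φ x * (y - x) + k * (y - x) ^ 2 := by
    set O := (vring v hv).toSubring
    let φ' : A →+* O := φ.codRestrict O hφ
    let x' : O := ⟨x, hx⟩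
    let y' : O := ⟨y, hy⟩
    obtain ⟨k, hk⟩ := Polynomial.binomExpansion (Q.map φ') x' (y' - x')
    have e : ∀ (F : Polynomial A) (z : O), (((F.map φ').eval z : O) : ℂ) = F.eval₂ φ (z : ℂ) := by
      intro F z
      have h6 : ((F.map φ').eval z) = F.eval₂ φ' z := Polynomial.eval_map _ _
      rw [h6]
      have h7 := Polynomial.hom_eval₂ F φ' O.subtype z
      exact h7
    refine ⟨(k : ℂ), k.2, ?_⟩
    have h8 := congrArg (fun z : O => (z : ℂ)) hk
    simp only [add_sub_cancel] at h8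
    rw [e] at h8
    rw [Polynomial.derivative_map] at h8
    push_cast at h8
    rw [e, e] at h8
    exact h8
  rw [hQx, hQy, zero_add] at hk
  have h9 : (Q.derivative.eval₂ φ x + k * (y - x)) * (y - x) = 0 := by linear_combination -hk
  have h10 := (mul_eq_zero.1 h9).resolve_right hne'
  have h11 : v (Q.derivative.eval₂ φ x) = v (k * (y - x)) := by
    rw [eq_neg_of_add_eq_zero_left h10, map_neg_eq_map]
  rw [h3, map_mul] at h11
  have h12 : v k * v (y - x) < 1 := (mul_le_of_le_one_left (v.nonneg _) hk1).trans_lt hxy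
  linarith

end general

/-! ## The coefficients of a polynomial in two variables -/

section two
variable {A : Type} [CommRing A]

/-- the coefficient of `X ^ i`, a polynomial in `Y` -/
noncomputable def coefY (H : MvPolynomial (Fin 2) A) (i : ℕ) : Polynomial A :=
  ∑ m ∈ H.support with m 0 = i, Polynomial.monomial (m 1) (H.coeff m)

lemma coefY_coeff (H : MvPolynomial (Fin 2) A) (m : Fin 2 →₀ ℕ) :
    (coefY H (m 0)).coeff (m 1) = H.coeff m := by
  classical
  rw [coefY, Polynomial.finsetSum_coeff]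
  by_cases hm : m ∈ H.support
  · have hmem : m ∈ H.support.filter fun m' => m' 0 = m 0 := Finset.mem_filter.2 ⟨hm, rfl⟩
    rw [Finset.sum_eq_single_of_mem m hmem]
    · rw [Polynomial.coeff_monomial, if_pos rfl]
    · intro m' hm' hne
      rw [Polynomial.coeff_monomial, if_neg]
      intro h
      apply hne
      ext j
      fin_cases j
      · exact (Finset.mem_filter.1 hm').2
      · exact h
  · rw [Finset.sum_eq_zero, MvPolynomial.notMem_support_iff.1 hm]
    intro m' hm'
    rw [Polynomial.coeff_monomial, if_neg]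
    intro h
    have h1 : m' = m := by
      ext j
      fin_cases j
      · exact (Finset.mem_filter.1 hm').2
      · exact h
    rw [h1] at hm'
    exact hm (Finset.mem_filter.1 hm').1

lemma coefY_ne_zero {H : MvPolynomial (Fin 2) A} {m : Fin 2 →₀ ℕ} (hm : H.coeff m ≠ 0) :
    coefY H (m 0) ≠ 0 := by
  intro h
  apply hm
  rw [← coefY_coeff, h, Polynomial.coeff_zero]

variable {σ : Type}

/-- specialisation of the parameters -/
lemma coefY_eval₂ (H : MvPolynomial (Fin 2) (MvPolynomial σ ℤ)) (s : σ → ℤ) (i : ℕ) (y : ℂ) :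
    (coefY H i).eval₂ ((Int.castRingHom ℂ).comp (MvPolynomial.eval s)) y =
      (inX (MvPolynomial.map (MvPolynomial.eval s) H) y).coeff i := by
  classical
  rw [inX_coeff, coefY, Polynomial.eval₂_finsetSum]
  symm
  have h1 : ((MvPolynomial.map (MvPolynomial.eval s) H).support.filter fun m => m 0 = i) ⊆
      H.support.filter fun m => m 0 = i :=
    Finset.filter_subset_filter _ (MvPolynomial.support_map_subset _ _)
  refine (Finset.sum_subset h1 fun m hm hm' => ?_).trans (Finset.sum_congr rfl fun m _ => ?_)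
  · have h2 : (MvPolynomial.map (MvPolynomial.eval s) H).coeff m = 0 := by
      rw [← MvPolynomial.notMem_support_iff]
      intro h3
      exact hm' (Finset.mem_filter.2 ⟨h3, (Finset.mem_filter.1 hm).2⟩)
    rw [h2, Int.cast_zero, zero_mul]
  · rw [Polynomial.eval₂_monomial, MvPolynomial.coeff_map]
    rfl

/-- the roots of the coefficients of `H(X, Y)` as a polynomial in `X`, taken together, are either equal or
far from each other -/
def SepR (v : AbsoluteValue ℂ ℝ) (H : MvPolynomial (Fin 2) ℤ) : Prop :=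
  ∀ (x y : ℂ) (i j : ℕ), (∃ m ∈ H.support, m 0 = i) → (∃ m ∈ H.support, m 0 = j) →
    (inX H x).coeff i = 0 → (inX H y).coeff j = 0 → v x ≤ 1 → v y ≤ 1 → v (y - x) < 1 → y = x

theorem exists_sepR (H : MvPolynomial (Fin 2) (MvPolynomial σ ℤ)) : ∃ P : MvPolynomial σ ℤ, P ≠ 0 ∧
    ∀ (s : σ → ℤ) (p : ℕ), p.Prime → ¬ (p : ℤ) ∣ MvPolynomial.eval s P → ∀ v : AbsoluteValue ℂ ℝ,
      IsNonarchimedean v → v (p : ℂ) < 1 → SepR v (MvPolynomial.map (MvPolynomial.eval s) H) := by
  classical
  set I := H.support.image fun m => m 0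
  have hI : ∀ i ∈ I, coefY H i ≠ 0 := by
    intro i hi
    obtain ⟨m, hm, rfl⟩ := Finset.mem_image.1 hi
    exact coefY_ne_zero (MvPolynomial.mem_support_iff.1 hm)
  obtain ⟨P, hP, h⟩ := sep_spread (Finset.prod_ne_zero_iff.2 hI)
  refine ⟨P, hP, fun s p hp hps v hv hvp x y i j hi hj hx hy hvx hvy hxy => ?_⟩
  set φ : MvPolynomial σ ℤ →+* ℂ := (Int.castRingHom ℂ).comp (MvPolynomial.eval s)
  have hmem : ∀ i, (∃ m ∈ (MvPolynomial.map (MvPolynomial.eval s) H).support, m 0 = i) → i ∈ I := by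
    rintro i ⟨m, hm, rfl⟩
    exact Finset.mem_image_of_mem _ (MvPolynomial.support_map_subset _ _ hm)
  have hroot : ∀ i ∈ I, ∀ z, (coefY H i).eval₂ φ z = 0 → (∏ i ∈ I, coefY H i).eval₂ φ z = 0 := by
    intro i hi z hz
    rw [Polynomial.eval₂_finsetProd]
    exact Finset.prod_eq_zero hi hz
  refine h φ v hv (fun a => v_int_le hv _) (v_int_eq_one hv hp hvp hps) x y hvx hvy
    (hroot i (hmem i hi) x ?_) (hroot j (hmem j hj) y ?_) hxy
  · rw [coefY_eval₂]
    exact hx
  · rw [coefY_eval₂]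
    exact hy

/-- the form used at three coordinates with different pole orders: a root `κ` of `H(0, Y)` with `v κ = 1` and a
root of another coefficient are equal or far from each other -/
theorem exists_sepRoots (H : MvPolynomial (Fin 2) (MvPolynomial σ ℤ)) (m₀ : Fin 2 →₀ ℕ) (hm₀ : m₀ 0 = 0)
    (hH : H.coeff m₀ ≠ 0) : ∃ P : MvPolynomial σ ℤ, P ≠ 0 ∧
    ∀ (s : σ → ℤ) (p : ℕ), p.Prime → ¬ (p : ℤ) ∣ MvPolynomial.eval s P → ∀ v : AbsoluteValue ℂ ℝ,
      IsNonarchimedean v → v (p : ℂ) < 1 →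
        v (((MvPolynomial.map (MvPolynomial.eval s) H).coeff m₀ : ℤ) : ℂ) = 1 ∧
        ∀ (κ θ : ℂ) (i : ℕ), ev (MvPolynomial.map (MvPolynomial.eval s) H) 0 κ = 0 → v κ = 1 →
          (∃ m ∈ (MvPolynomial.map (MvPolynomial.eval s) H).support, m 0 = i) →
          (inX (MvPolynomial.map (MvPolynomial.eval s) H) θ).coeff i = 0 → v (θ - κ) < 1 → θ = κ := by
  obtain ⟨P, hP, h⟩ := exists_sepR H
  refine ⟨P * H.coeff m₀, mul_ne_zero hP hH, fun s p hp hps v hv hvp => ?_⟩
  rw [map_mul] at hps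
  have h1 : ¬ (p : ℤ) ∣ MvPolynomial.eval s P := fun h1 => hps (h1.mul_right _)
  have h2 : ¬ (p : ℤ) ∣ MvPolynomial.eval s (H.coeff m₀) := fun h1 => hps (h1.mul_left _)
  have h3 : v (((MvPolynomial.map (MvPolynomial.eval s) H).coeff m₀ : ℤ) : ℂ) = 1 := by
    rw [MvPolynomial.coeff_map]
    exact v_int_eq_one hv hp hvp h2
  refine ⟨h3, fun κ θ i hκ hκ1 hi hθ hlt => ?_⟩
  have h4 : m₀ ∈ (MvPolynomial.map (MvPolynomial.eval s) H).support := by
    rw [MvPolynomial.mem_support_iff]
    intro h5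
    rw [h5, Int.cast_zero, map_zero] at h3
    exact zero_ne_one h3
  have h5 : (inX (MvPolynomial.map (MvPolynomial.eval s) H) κ).coeff 0 = 0 := by
    rw [Polynomial.coeff_zero_eq_eval_zero, inX_eval]
    exact hκ
  have h6 : v θ ≤ 1 := by
    have e : θ = (θ - κ) + κ := by ring
    rw [e]
    exact (hv _ _).trans (max_le hlt.le hκ1.le)
  exact h s p hp h1 v hv hvp κ θ 0 i ⟨m₀, h4, hm₀⟩ hi h5 hθ hκ1.le h6 hlt

end two

end Pool.Agent.Helper22.AA
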