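import Pool.Agent.Helper69.AA.Defs
import Pool.Agent.Helper69.DL.Gap
import Pool.Agent.Helper22.DL.Emb
import Pool.Agent.Helper36.DL.Final
import Pool.Agent.Helper36.DL.Place

/-! # Families: a monomial in the coordinates of the generic point is transcendental -/

open MvPolynomial Finset Cardinal

namespace Pool.Agent.Helper22.AA
open Pool.Agent.Helper69.AA Pool.Agent.Helper20.ZD Pool.Agent.Helper20.DL Pool.Agent.Helper69.DL
  Pool.Agent.Helper36.DL Pool.Agent.Helper22.DL

variable {σ : Type} {n : ℕ} {v : AbsoluteValue ℂ ℝ}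

/-- **two independent families of complex numbers are conjugate** -/
theorem exists_ringEquiv_fam {ι : Type} [Countable ι] {x y : ι → ℂ} (hx : AlgebraicIndependent ℤ x)
    (hy : AlgebraicIndependent ℤ y) : ∃ f : ℂ ≃+* ℂ, ∀ i, f (x i) = y i := by
  have hR : #(MvPolynomial ι ℤ) ≤ ℵ₀ := by
    refine (MvPolynomial.cardinalMk_le_max (σ := ι) (R := ℤ)).trans ?_
    simp [mk_le_aleph0]
  set g : MvPolynomial ι ℤ →+* ℂ := (aeval x : MvPolynomial ι ℤ →ₐ[ℤ] ℂ).toRingHom with hg
  set h : MvPolynomial ι ℤ →+* ℂ := (aeval y : MvPolynomial ι ℤ →ₐ[ℤ] ℂ).toRingHom with hh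
  have hgi : Function.Injective g := hx
  have hhi : Function.Injective h := hy
  let a1 : Algebra (MvPolynomial ι ℤ) ℂ := g.toAlgebra
  have f1 : FaithfulSMul (MvPolynomial ι ℤ) ℂ := (faithfulSMul_iff_algebraMap_injective _ _).2 hgi
  let a2 : Algebra (MvPolynomial ι ℤ) ℂ := h.toAlgebra
  have f2 : @FaithfulSMul (MvPolynomial ι ℤ) ℂ a2.toSMul :=
    (@faithfulSMul_iff_algebraMap_injective _ _ _ _ a2).2 hhi
  obtain ⟨f, hf⟩ := @exists_ringEquiv_over (MvPolynomial ι ℤ) ℂ ℂ _ _ _ _ a1 a2 f1 f2 _ _ hR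
    (by rw [Cardinal.mk_complex]; exact Cardinal.aleph0_lt_continuum) rfl
  refine ⟨f, fun i => ?_⟩
  have h1 : f (g (X i)) = h (X i) := hf (X i)
  have e1 : g (X i) = x i := aeval_X _ _
  have e2 : h (X i) = y i := aeval_X _ _
  rwa [e1, e2] at h1

/-- affine images of independent numbers are independent -/
lemma indep_affine {ι : Type} {x : ι → ℂ} (hx : AlgebraicIndependent ℤ x) (a b : ι → ℤ)
    (hb : ∀ i, b i ≠ 0) : AlgebraicIndependent ℤ fun i => (a i : ℂ) + b i * x i := by
  rw [algebraicIndependent_iff]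
  intro F hF
  set G : MvPolynomial ι ℤ := aeval (fun i => C (a i) + C (b i) * X i) F with hG
  have h1 : aeval x G = 0 := by
    have h2 : (aeval x : MvPolynomial ι ℤ →ₐ[ℤ] ℂ).comp
        (aeval fun i => C (a i) + C (b i) * X i) = aeval fun i => (a i : ℂ) + b i * x i := by
      ext i
      simp
    have h3 := DFunLike.congr_fun h2 F
    rw [hF] at h3
    exact h3
  have h2 : G = 0 := (algebraicIndependent_iff.1 hx) G h1
  refine MvPolynomial.funext_set (fun i => Set.range fun t : ℤ => a i + b i * t)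
    (fun i => Set.infinite_range_of_injective fun s t hst => ?_) fun y hy => ?_
  · exact mul_left_cancel₀ (hb i) (add_left_cancel hst)
  · choose t ht using fun i => hy i trivial
    rw [map_zero]
    have h3 := congrArg (eval t) h2
    rw [map_zero, hG] at h3
    have h4 : (aeval t : MvPolynomial ι ℤ →ₐ[ℤ] ℤ).comp
        (aeval fun i => C (a i) + C (b i) * X i) = aeval y := by
      ext i
      have h6 : a i + b i * t i = y i := ht i
      rw [AlgHom.comp_apply, aeval_X, aeval_X, ← h6]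
      simp
    have h5 := DFunLike.congr_fun h4 F
    rw [AlgHom.comp_apply, aeval_eq_eval, aeval_eq_eval] at h5
    change eval t _ = eval y F at h5
    rw [← h5]
    exact h3

/-- polynomials at near points -/
lemma aeval_near (hv : IsNonarchimedean v) {s' : σ → ℂ} {s₀ : σ → ℤ} (h : ∀ κ, v (s' κ - s₀ κ) < 1)
    (F : MvPolynomial σ ℤ) : v (aeval s' F) ≤ 1 ∧ v (aeval s' F - (eval s₀ F : ℤ)) < 1 := by
  have hi : ∀ q : ℤ, v (q : ℂ) ≤ 1 := fun q => hv.apply_intCast_le_one
  have hs : ∀ κ, v (s' κ) ≤ 1 := fun κ => by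
    rw [show s' κ = (s' κ - s₀ κ) + s₀ κ by ring]
    exact (hv _ _).trans (max_le (h κ).le (hi _))
  induction F using MvPolynomial.induction_on with
  | C a =>
    rw [algHom_C, eval_C]
    change v ((a : ℤ) : ℂ) ≤ 1 ∧ v (((a : ℤ) : ℂ) - (a : ℤ)) < 1
    refine ⟨hi a, ?_⟩
    rw [sub_self, map_zero]
    exact one_pos
  | add p q hp hq =>
    have ea : aeval s' (p + q) = aeval s' p + aeval s' q := map_add _ _ _
    have eb : eval s₀ (p + q) = eval s₀ p + eval s₀ q := map_add _ _ _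
    rw [ea, eb]
    refine ⟨(hv _ _).trans (max_le hp.1 hq.1), ?_⟩
    rw [Int.cast_add, show aeval s' p + aeval s' q - (((eval s₀ p : ℤ) : ℂ) + ((eval s₀ q : ℤ) : ℂ)) =
      (aeval s' p - ((eval s₀ p : ℤ) : ℂ)) + (aeval s' q - ((eval s₀ q : ℤ) : ℂ)) by ring]
    exact lt_of_le_of_lt (hv _ _) (max_lt hp.2 hq.2)
  | mul_X p i hp =>
    have ea : aeval s' (p * X i) = aeval s' p * s' i := by rw [map_mul, aeval_X]
    have eb : eval s₀ (p * X i) = eval s₀ p * s₀ i := by rw [map_mul, eval_X]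
    rw [ea, eb]
    refine ⟨?_, ?_⟩
    · rw [map_mul]
      exact mul_le_one₀ hp.1 (v.nonneg _) (hs i)
    · rw [Int.cast_mul, show aeval s' p * s' i - ((eval s₀ p : ℤ) : ℂ) * ((s₀ i : ℤ) : ℂ) =
        (aeval s' p - ((eval s₀ p : ℤ) : ℂ)) * s' i + ((eval s₀ p : ℤ) : ℂ) * (s' i - s₀ i) by ring]
      refine lt_of_le_of_lt (hv _ _) (max_lt ?_ ?_)
      · rw [map_mul]
        exact lt_of_le_of_lt (mul_le_of_le_one_right (v.nonneg _) (hs i)) hp.2
      · rw [map_mul]
        exact lt_of_le_of_lt (mul_le_of_le_one_left (v.nonneg _) (hi _)) (h i)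

lemma aeval_near_unit (hv : IsNonarchimedean v) {s' : σ → ℂ} {s₀ : σ → ℤ}
    (h : ∀ κ, v (s' κ - s₀ κ) < 1) {F : MvPolynomial σ ℤ} (hF : v ((eval s₀ F : ℤ) : ℂ) = 1) :
    v (aeval s' F) = 1 := by
  rw [← hF, show aeval s' F = ((eval s₀ F : ℤ) : ℂ) + (aeval s' F - ((eval s₀ F : ℤ) : ℂ)) by ring]
  exact v_add_eq hv (by rw [hF]; exact (aeval_near hv h F).2)

lemma v_sum_lt (hv : IsNonarchimedean v) {ι : Type*} (s : Finset ι) (f : ι → ℂ) {B : ℝ} (hB : 0 < B)
    (h : ∀ i ∈ s, v (f i) < B) : v (∑ i ∈ s, f i) < B := by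
  classical
  induction s using Finset.induction_on with
  | empty => rw [sum_empty, map_zero]; exact hB
  | insert a s ha ih =>
    rw [sum_insert ha]
    exact lt_of_le_of_lt (hv _ _) (max_lt (h a (mem_insert_self _ _)) (ih fun i hi => h i (mem_insert_of_mem hi)))

/-- the roots of a polynomial with integral coefficients, the first and the last of which are units -/
lemma root_unit (hv : IsNonarchimedean v) {d : ℕ} {c : ℕ → ℂ} (hc : ∀ j, v (c j) ≤ 1) (h0 : v (c 0) = 1)
    (hd : v (c d) = 1) {β : ℂ} (h : ∑ j ∈ range (d + 1), c j * β ^ j = 0) : v β = 1 := by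
  rcases lt_trichotomy (v β) 1 with hlt | heq | hgt
  · exfalso
    rw [sum_range_succ', pow_zero, mul_one] at h
    have h1 : v (∑ j ∈ range d, c (j + 1) * β ^ (j + 1)) < 1 := by
      refine v_sum_lt hv _ _ one_pos fun j _ => ?_
      rw [map_mul, map_pow]
      exact lt_of_le_of_lt (mul_le_of_le_one_left (pow_nonneg (v.nonneg _) _) (hc _))
        (pow_lt_one₀ (v.nonneg _) hlt (Nat.succ_ne_zero j))
    have h2 := v_add_eq hv (x := c 0) (y := ∑ j ∈ range d, c (j + 1) * β ^ (j + 1)) (by rw [h0]; exact h1)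
    rw [add_comm, h, map_zero, h0] at h2
    exact zero_ne_one h2
  · exact heq
  · exfalso
    rw [sum_range_succ] at h
    have hpos : 0 < v β ^ d := pow_pos (lt_trans one_pos hgt) d
    have h1 : v (∑ j ∈ range d, c j * β ^ j) < v β ^ d := by
      refine v_sum_lt hv _ _ hpos fun j hj => ?_
      rw [map_mul, map_pow]
      exact lt_of_le_of_lt (mul_le_of_le_one_left (pow_nonneg (v.nonneg _) _) (hc _))
        (pow_lt_pow_right₀ hgt (mem_range.1 hj))
    have h3 : v (c d * β ^ d) = v β ^ d := by rw [map_mul, map_pow, hd, one_mul]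
    have h2 := v_add_eq hv (x := c d * β ^ d) (y := ∑ j ∈ range d, c j * β ^ j) (by rw [h3]; exact h1)
    rw [add_comm, h, map_zero, h3] at h2
    exact hpos.ne h2

lemma exists_pow_small (hv : IsNonarchimedean v) {p : ℕ} (hvp : v (p : ℂ) < 1) (x : ℂ) :
    ∃ N : ℕ, v ((p : ℂ) ^ N * x) < 1 := by
  rcases eq_or_ne (v x) 0 with h0 | h0
  · exact ⟨0, by rw [map_mul, h0, mul_zero]; exact one_pos⟩
  have hx : 0 < v x := lt_of_le_of_ne (v.nonneg _) (Ne.symm h0)
  obtain ⟨N, hN⟩ := exists_pow_lt_of_lt_one (inv_pos.2 hx) hvp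
  refine ⟨N, ?_⟩
  rw [map_mul, map_pow]
  calc v (p : ℂ) ^ N * v x < (v x)⁻¹ * v x := by gcongr
    _ = 1 := inv_mul_cancel₀ hx.ne'

/-- **F1**: a nontrivial monomial in the coordinates of the generic point is transcendental over the ring
generated by the parameters -/
theorem transc_family [Countable σ] {ss : σ → ℂ} {zs : Fin n → ℂ} (hF : Family ss zs) {c : Fin n → ℤ}
    {k : Fin n} (hck : c k ≠ 0) :
    Transcendental (Algebra.adjoin ℤ (Set.range ss)) (∏ i, zs i ^ c i) := by
  classical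
  intro halg
  have hz0 : ∀ i, zs i ≠ 0 := fun i h => hF.tr i (by rw [h]; exact isAlgebraic_zero)
  set α := ∏ i, zs i ^ c i with hα
  have hα0 : α ≠ 0 := prod_ne_zero_iff.2 fun i _ => zpow_ne_zero _ (hz0 i)
  obtain ⟨g, hg0, hg⟩ := halg.exists_nonzero_coeff_and_aeval_eq_zero (mem_nonZeroDivisors_of_ne_zero hα0)
  have hgne : g ≠ 0 := by
    rintro rfl
    exact hg0 (Polynomial.coeff_zero 0)
  obtain ⟨P, hP0, hP⟩ := hF.corner
  -- the coefficients as polynomials in the parameters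
  let e := hF.indep.aevalEquiv
  set q : ℕ → MvPolynomial σ ℤ := fun j => e.symm (g.coeff j) with hq
  have hqv : ∀ j, aeval ss (q j) = ((g.coeff j : Algebra.adjoin ℤ (Set.range ss)) : ℂ) := by
    intro j
    have h1 : ((e (q j) : Algebra.adjoin ℤ (Set.range ss)) : ℂ) = aeval ss (q j) :=
      hF.indep.aevalEquiv_apply_coe (q j)
    rw [← h1, hq]
    simp
  set d := g.natDegree with hd
  have hq0 : q 0 ≠ 0 := fun h => hg0 (by
    have : e (q 0) = 0 := by rw [h, map_zero]
    rw [hq] at this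
    simpa using this)
  have hqd : q d ≠ 0 := fun h => by
    have : e (q d) = 0 := by rw [h, map_zero]
    rw [hq] at this
    have h2 : g.coeff d = 0 := by simpa using this
    rw [hd, Polynomial.coeff_natDegree, Polynomial.leadingCoeff_eq_zero] at h2
    exact hgne h2
  -- an integral point
  obtain ⟨s₀, hs₀⟩ : ∃ s₀ : σ → ℤ, eval s₀ (P * q 0 * q d) ≠ 0 := by
    by_contra hcon
    push Not at hcon
    exact mul_ne_zero (mul_ne_zero hP0 hq0) hqd (MvPolynomial.funext fun x => by rw [hcon x, map_zero])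
  set m : ℤ := eval s₀ (P * q 0 * q d) with hm
  obtain ⟨p, hpm, hp⟩ := Nat.exists_infinite_primes (m.natAbs + 1)
  have hpd : ¬ (p : ℤ) ∣ m := fun h => by
    have h1 := Nat.le_of_dvd (Int.natAbs_pos.2 hs₀) (Int.natCast_dvd.1 h)
    omega
  obtain ⟨v, hv, hvp'⟩ := exists_place hp
  have hvp : v (p : ℂ) < 1 := by
    rw [hvp']
    exact inv_lt_one_of_one_lt₀ (by exact_mod_cast hp.one_lt)
  have hme : m = eval s₀ P * eval s₀ (q 0) * eval s₀ (q d) := by rw [hm, map_mul, map_mul]
  have u1 : v ((eval s₀ P : ℤ) : ℂ) = 1 := v_int_eq_one hv hp hvp fun h => hpd (by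
    rw [hme]; exact (h.mul_right _).mul_right _)
  have u2 : v ((eval s₀ (q 0) : ℤ) : ℂ) = 1 := v_int_eq_one hv hp hvp fun h => hpd (by
    rw [hme]; exact (h.mul_left _).mul_right _)
  have u3 : v ((eval s₀ (q d) : ℤ) : ℂ) = 1 := v_int_eq_one hv hp hvp fun h => hpd (by
    rw [hme]; exact h.mul_left _)
  -- the point near `s₀`
  choose N hN using fun κ => exists_pow_small hv hvp (ss κ)
  obtain ⟨M, hM⟩ := exists_pow_small hv hvp (zs k)
  have hind : AlgebraicIndependent ℤ fun o : Option σ => o.elim (zs k) ss :=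
    (AlgebraicIndependent.option_iff).2 ⟨hF.indep, hF.tr k⟩
  have hp0 : (p : ℤ) ≠ 0 := by exact_mod_cast hp.ne_zero
  have hind' := indep_affine hind (fun o => o.elim 0 s₀) (fun o => o.elim ((p : ℤ) ^ M) fun κ => (p : ℤ) ^ N κ)
    (by rintro (_ | κ) <;> exact pow_ne_zero _ hp0)
  obtain ⟨f, hf⟩ := exists_ringEquiv_fam hind hind'
  set τ : ℂ := (p : ℂ) ^ M * zs k with hτ
  have hpC : (p : ℂ) ≠ 0 := by exact_mod_cast hp.ne_zero
  have hτ0 : τ ≠ 0 := mul_ne_zero (pow_ne_zero _ hpC) (hz0 k)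
  have hfk : f (zs k) = τ := by
    have := hf none
    simpa [hτ] using this
  have hfs : ∀ κ, f (ss κ) = (s₀ κ : ℂ) + (p : ℂ) ^ N κ * ss κ := fun κ => by
    have := hf (some κ)
    simpa using this
  have hnear : ∀ κ, v (f (ss κ) - s₀ κ) < 1 := fun κ => by
    rw [hfs, add_sub_cancel_left]
    exact hN κ
  have hnear' := fun F => aeval_near hv (s' := fun κ => f (ss κ)) (s₀ := s₀) hnear F
  -- the conjugate point is in the fibre
  have hcomp : ∀ (ι : Type) (x : ι → ℂ) (F : MvPolynomial ι ℤ), f (aeval x F) = aeval (fun i => f (x i)) F := by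
    intro ι x F
    have := MvPolynomial.map_aeval (R := ℤ) x (f : ℂ →+* ℂ) F
    rw [aeval_def, aeval_def, ← RingEquiv.coe_toRingHom, hom_eval₂]
    congr 1
    exact Subsingleton.elim _ _
  have hfib : (fun i => f (zs i)) ∈ fib ss zs (fun κ => f (ss κ)) := by
    intro F hF0
    have h1 := congrArg f hF0
    rw [hcomp, map_zero] at h1
    rw [← h1]
    congr 2
    funext o
    rcases o with κ | i <;> rfl
  have hvs : ∀ κ, v (f (ss κ)) ≤ 1 := fun κ => by
    rw [show f (ss κ) = (f (ss κ) - s₀ κ) + s₀ κ by ring]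
    exact (hv _ _).trans (max_le (hnear κ).le hv.apply_intCast_le_one)
  have hun : ∀ i, i ≠ k → v (f (zs i)) = 1 := by
    intro i hi
    rcases hP v hv _ _ hfib hvs (aeval_near_unit hv hnear u1) i k hi with h | h
    · exact h
    · rw [hfk] at h
      rw [h] at hM
      exact absurd hM (lt_irrefl _)
  -- the value of the monomial
  have e1 : v (f α) = v τ ^ c k := by
    rw [hα, map_prod, map_prod, ← mul_prod_erase univ _ (mem_univ k), Finset.prod_eq_one, mul_one,
      map_zpow₀, map_zpow₀, hfk]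
    intro i hi
    rw [map_zpow₀, map_zpow₀, hun i (ne_of_mem_erase hi), one_zpow]
  -- the equation
  have e2 : ∑ j ∈ range (d + 1), aeval (fun κ => f (ss κ)) (q j) * f α ^ j = 0 := by
    have h1 := congrArg f hg
    rw [Polynomial.aeval_eq_sum_range, map_sum, map_zero] at h1
    rw [← h1]
    refine sum_congr rfl fun j _ => ?_
    rw [Algebra.smul_def, map_mul, map_pow, ← hcomp, hqv]
    rfl
  have e3 : v (f α) = 1 := root_unit hv (fun j => (hnear' (q j)).1) (aeval_near_unit hv hnear u2)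
    (aeval_near_unit hv hnear u3) e2
  rw [e1] at e3
  have h4 : v τ = 1 := (zpow_eq_one_iff_of_ne_zero₀ hck).1 e3 |>.resolve_right fun h => by
    have := v.pos hτ0
    rw [h.1] at this
    linarith
  rw [h4] at hM
  exact lt_irrefl _ hM

end Pool.Agent.Helper22.AA
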